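import Mathlib
import Pool.Agent.Y949.J.Ram2

set_option autoImplicit false

/-!
# Ramanujan's identities for `E₂, E₄, E₆` as identities of formal power series with integral coefficients
-/

open UpperHalfPlane hiding I
open Complex Filter Topology Derivative EisensteinSeries ModularForm MatrixGroups Function
open scoped Manifold MatrixGroups ModularForm ArithmeticFunction.sigma

namespace Pool.Agent.R498.EJ

/-- `θ = q d/dq` on power series. -/
noncomputable def th {R : Type*} [CommRing R] (f : PowerSeries R) : PowerSeries R :=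
  PowerSeries.mk fun n => (n : R) * PowerSeries.coeff n f

/-- `E₂` -/
noncomputable def e2 : PowerSeries ℤ := PowerSeries.mk fun n => if n = 0 then 1 else -24 * (σ 1 n : ℤ)
/-- `E₄` -/
noncomputable def e4 : PowerSeries ℤ := PowerSeries.mk fun n => if n = 0 then 1 else 240 * (σ 3 n : ℤ)
/-- `E₆` -/
noncomputable def e6 : PowerSeries ℤ := PowerSeries.mk fun n => if n = 0 then 1 else -504 * (σ 5 n : ℤ)

/-- `F` is given by the `q`-expansion `f`. -/
def HQ (F : ℍ → ℂ) (f : PowerSeries ℂ) : Prop :=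
  ∀ τ : ℍ, HasSum (fun n : ℕ => PowerSeries.coeff n f * (Periodic.qParam 1 τ) ^ n) (F τ)

theorem HQ.add {F G : ℍ → ℂ} {f g : PowerSeries ℂ} (hF : HQ F f) (hG : HQ G g) : HQ (fun τ => F τ + G τ) (f + g) := by
  intro τ
  have h := (hF τ).add (hG τ)
  refine h.congr_fun ?_ |> fun h => h
  intro n
  rw [map_add]
  ring

theorem HQ.smul {F : ℍ → ℂ} {f : PowerSeries ℂ} (c : ℂ) (hF : HQ F f) :
    HQ (fun τ => c * F τ) (PowerSeries.C c * f) := by
  intro τ
  have h := (hF τ).mul_left c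
  refine h.congr_fun ?_ |> fun h => h
  intro n
  rw [PowerSeries.coeff_C_mul]
  ring

theorem HQ.mul {F G : ℍ → ℂ} {f g : PowerSeries ℂ} (hF : HQ F f) (hG : HQ G g) :
    HQ (fun τ => F τ * G τ) (f * g) := by
  intro τ
  have h1 := (hF τ).summable.norm
  have h2 := (hG τ).summable.norm
  have h3 := summable_norm_sum_mul_antidiagonal_of_summable_norm h1 h2
  have h4 := tsum_mul_tsum_eq_tsum_sum_antidiagonal_of_summable_norm h1 h2
  rw [(hF τ).tsum_eq, (hG τ).tsum_eq] at h4
  show HasSum _ (F τ * G τ)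
  rw [h4]
  have h5 := h3.of_norm.hasSum
  refine h5.congr_fun ?_ |> fun h => h
  intro n
  rw [PowerSeries.coeff_mul, Finset.sum_mul]
  apply Finset.sum_congr rfl
  intro kl hkl
  rw [Finset.HasAntidiagonal.mem_antidiagonal] at hkl
  rw [← hkl, pow_add]
  ring

theorem HQ.eq_zero {f : PowerSeries ℂ} (hF : HQ (fun _ => 0) f) : f = 0 := by
  ext n
  have h := ModularFormClass.qExpansion_coeff_unique (F := ModularForm 𝒮ℒ 4) (k := 4) (h := 1)
    (c := fun n => PowerSeries.coeff n f) one_pos one_mem_strictPeriods_SL (f := (0 : ModularForm 𝒮ℒ 4))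
    (by
      intro τ
      exact hF τ) n
  have h2 : (⇑(0 : ModularForm 𝒮ℒ 4)) = (0 : ℍ → ℂ) := rfl
  rw [h2, UpperHalfPlane.qExpansion_zero] at h
  exact h

theorem HQ.D {F : ℍ → ℂ} {f : PowerSeries ℂ} (hF : HQ F f) : HQ (D F) (th f) := by
  intro τ
  obtain ⟨U, hU⟩ : ∃ U : Set ℂ, U = {w : ℂ | τ.im / 2 < w.im} := ⟨_, rfl⟩
  have hUo : IsOpen U := by
    rw [hU]
    exact isOpen_lt continuous_const Complex.continuous_im
  have hτU : (τ : ℂ) ∈ U := by
    rw [hU]
    show τ.im / 2 < τ.im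
    linarith [τ.im_pos]
  obtain ⟨τ₁, hτ₁⟩ : ∃ t : ℍ, t.im = τ.im / 2 := ⟨⟨⟨0, τ.im / 2⟩, by
    show 0 < τ.im / 2
    linarith [τ.im_pos]⟩, rfl⟩
  have hpos : ∀ w ∈ U, 0 < w.im := by
    intro w hw
    rw [hU] at hw
    have h1 : τ.im / 2 < w.im := hw
    linarith [τ.im_pos]
  have hle : ∀ (n : ℕ) (w : ℂ), w ∈ U → ‖PowerSeries.coeff n f * (Periodic.qParam 1 w) ^ n‖ ≤
      ‖PowerSeries.coeff n f * (Periodic.qParam 1 (τ₁ : ℂ)) ^ n‖ := by
    intro n w hw
    rw [norm_mul, norm_mul, norm_pow, norm_pow, Periodic.norm_qParam, Periodic.norm_qParam]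
    apply mul_le_mul_of_nonneg_left _ (norm_nonneg _)
    apply pow_le_pow_left₀ (Real.exp_pos _).le
    apply Real.exp_le_exp.2
    rw [hU] at hw
    have h1 : τ.im / 2 < w.im := hw
    have h2 : (τ₁ : ℂ).im = τ.im / 2 := hτ₁
    rw [h2]
    have h3 := Real.pi_pos
    simp only [div_one]
    nlinarith
  have hder : ∀ n : ℕ, ∀ w : ℂ, HasDerivAt (fun w : ℂ => PowerSeries.coeff n f * (Periodic.qParam 1 w) ^ n)
      (2 * Real.pi * I * (PowerSeries.coeff n (th f) * (Periodic.qParam 1 w) ^ n)) w := by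
    intro n w
    have h0 : HasDerivAt (fun w : ℂ => Periodic.qParam 1 w) (Periodic.qParam 1 w * (2 * Real.pi * I)) w := by
      have h1 : HasDerivAt (fun w : ℂ => 2 * Real.pi * I * w / ((1 : ℝ) : ℂ)) (2 * Real.pi * I) w := by
        have h2 := ((hasDerivAt_id w).const_mul (2 * Real.pi * I : ℂ)).div_const (((1 : ℝ) : ℂ))
        refine h2.congr_deriv ?_
        simp
      exact h1.cexp
    have h1 := (h0.pow n).const_mul (PowerSeries.coeff n f)
    refine h1.congr_deriv ?_
    rw [th, PowerSeries.coeff_mk]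
    rcases n with _ | n
    · simp
    · rw [Nat.add_sub_cancel, pow_succ]
      ring
  have hsum := hasSum_deriv_of_summable_norm (F := fun (n : ℕ) (w : ℂ) => PowerSeries.coeff n f *
    (Periodic.qParam 1 w) ^ n) (hF τ₁).summable.norm
    (fun n w _ => (hder n w).differentiableAt.differentiableWithinAt) hUo hle hτU
  have heq : (F ∘ ofComplex) =ᶠ[𝓝 (τ : ℂ)] fun w : ℂ => ∑' n : ℕ, PowerSeries.coeff n f *
      (Periodic.qParam 1 w) ^ n := by
    filter_upwards [hUo.mem_nhds hτU] with w hw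
    rw [Function.comp_apply, ofComplex_apply_of_im_pos (hpos w hw)]
    exact (hF ⟨w, hpos w hw⟩).tsum_eq.symm
  show HasSum _ ((2 * Real.pi * I)⁻¹ * deriv (F ∘ ofComplex) τ)
  rw [heq.deriv_eq]
  have h1 := hsum.mul_left (2 * Real.pi * I : ℂ)⁻¹
  refine h1.congr_fun ?_ |> fun h => h
  intro n
  rw [(hder n τ).deriv, inv_mul_cancel_left₀ Complex.two_pi_I_ne_zero]

theorem HQ_e2 : HQ E2 (PowerSeries.map (Int.castRingHom ℂ) e2) := by
  intro τ
  have h := hasSum_qExpansion_E2 (z := τ)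
  refine h.congr_fun ?_ |> fun h => h
  intro n
  rw [PowerSeries.coeff_map, e2, PowerSeries.coeff_mk, smul_eq_mul, Periodic.qParam, ofReal_one, div_one]
  congr 1
  split_ifs <;> simp

theorem HQ_e4 : HQ E₄ (PowerSeries.map (Int.castRingHom ℂ) e4) := by
  intro τ
  have h := ModularForm.hasSum_qExpansion (f := E₄) (h := 1) one_pos one_mem_strictPeriods_SL τ
  refine h.congr_fun ?_ |> fun h => h
  intro n
  rw [PowerSeries.coeff_map, e4, PowerSeries.coeff_mk]
  congr 1
  have h2 := E_qExpansion_coeff (k := 4) (by norm_num) (by decide) n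
  have hb : bernoulli 4 = -1 / 30 := by
    rw [bernoulli_eq_bernoulli'_of_ne_one (by norm_num), bernoulli'_four]
  rw [hb] at h2
  have h3 : (qExpansion 1 E₄).coeff n = (qExpansion 1 (E (show 3 ≤ 4 by norm_num))).coeff n := rfl
  rw [h3, h2]
  split_ifs
  · simp
  · push_cast
    norm_num

theorem HQ_e6 : HQ E₆ (PowerSeries.map (Int.castRingHom ℂ) e6) := by
  intro τ
  have h := ModularForm.hasSum_qExpansion (f := E₆) (h := 1) one_pos one_mem_strictPeriods_SL τ
  refine h.congr_fun ?_ |> fun h => h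
  intro n
  rw [PowerSeries.coeff_map, e6, PowerSeries.coeff_mk]
  congr 1
  have h2 := E_qExpansion_coeff (k := 6) (by norm_num) (by decide) n
  have b5 : bernoulli' 5 = 0 := bernoulli'_eq_zero_of_odd (by decide) (by norm_num)
  have b6 : bernoulli' 6 = 1 / 42 := by
    rw [bernoulli'_def]
    simp only [Finset.sum_range_succ, Finset.sum_range_zero, bernoulli'_zero, bernoulli'_one, bernoulli'_two,
      bernoulli'_three, bernoulli'_four, b5]
    norm_num [Nat.choose]
  have hb : bernoulli 6 = 1 / 42 := by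
    rw [bernoulli_eq_bernoulli'_of_ne_one (by norm_num), b6]
  rw [hb] at h2
  have h3 : (qExpansion 1 E₆).coeff n = (qExpansion 1 (E (show 3 ≤ 6 by norm_num))).coeff n := rfl
  rw [h3, h2]
  split_ifs
  · simp
  · push_cast
    norm_num

theorem th_map {R S : Type*} [CommRing R] [CommRing S] (φ : R →+* S) (f : PowerSeries R) :
    th (PowerSeries.map φ f) = PowerSeries.map φ (th f) := by
  ext n
  simp [th, PowerSeries.coeff_map]

theorem HQ.unique {F : ℍ → ℂ} {f g : PowerSeries ℂ} (hf : HQ F f) (hg : HQ F g) : f = g := by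
  have h := hf.add (hg.smul (-1))
  have h2 : (fun τ => F τ + -1 * F τ) = fun _ => (0 : ℂ) := by
    funext τ
    ring
  rw [h2] at h
  have h3 := h.eq_zero
  have h4 : (PowerSeries.C (-1 : ℂ)) = (-1 : PowerSeries ℂ) := by simp
  rw [h4] at h3
  linear_combination h3

theorem mapC_inj : Function.Injective (PowerSeries.map (Int.castRingHom ℂ)) := by
  intro f g h
  ext n
  have h1 := congrArg (PowerSeries.coeff n) h
  rw [PowerSeries.coeff_map, PowerSeries.coeff_map] at h1
  exact Int.cast_injective h1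

theorem ram4Z : 3 * th e4 = e2 * e4 - e6 := by
  apply mapC_inj
  rw [map_mul, map_sub, map_mul, ← th_map]
  have h1 := HQ_e4.D.smul 3
  have h2 := (HQ_e2.mul HQ_e4).add (HQ_e6.smul (-1))
  have h3 : (fun τ => (3 : ℂ) * D E₄ τ) = fun τ => E2 τ * E₄ τ + -1 * E₆ τ := by
    funext τ
    have h4 := Pool.Agent.Y949.J.ram4 τ
    have h5 : D (fun w => E₄ w) τ = D E₄ τ := rfl
    rw [h5] at h4
    rw [h4]
    ring
  rw [h3] at h1
  have h6 := h1.unique h2
  have h7 : (PowerSeries.C (-1 : ℂ)) = (-1 : PowerSeries ℂ) := by simp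
  have h8 : (PowerSeries.C (3 : ℂ)) = (3 : PowerSeries ℂ) := map_ofNat _ 3
  have h9 : PowerSeries.map (Int.castRingHom ℂ) 3 = 3 := map_ofNat _ 3
  rw [h7, h8] at h6
  rw [h9]
  linear_combination h6

theorem ram6Z : 2 * th e6 = e2 * e6 - e4 * e4 := by
  apply mapC_inj
  rw [map_mul, map_sub, map_mul, map_mul, ← th_map]
  have h1 := HQ_e6.D.smul 2
  have h2 := (HQ_e2.mul HQ_e6).add ((HQ_e4.mul HQ_e4).smul (-1))
  have h3 : (fun τ => (2 : ℂ) * D E₆ τ) = fun τ => E2 τ * E₆ τ + -1 * (E₄ τ * E₄ τ) := by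
    funext τ
    have h4 := Pool.Agent.Y949.J.ram6 τ
    have h5 : D (fun w => E₆ w) τ = D E₆ τ := rfl
    rw [h5] at h4
    rw [h4]
    ring
  rw [h3] at h1
  have h6 := h1.unique h2
  have h7 : (PowerSeries.C (-1 : ℂ)) = (-1 : PowerSeries ℂ) := by simp
  have h8 : (PowerSeries.C (2 : ℂ)) = (2 : PowerSeries ℂ) := map_ofNat _ 2
  have h9 : PowerSeries.map (Int.castRingHom ℂ) 2 = 2 := map_ofNat _ 2
  rw [h7, h8] at h6
  rw [h9]
  linear_combination h6

theorem ram2Z : 12 * th e2 = e2 * e2 - e4 := by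
  apply mapC_inj
  rw [map_mul, map_sub, map_mul, ← th_map]
  have h1 := HQ_e2.D.smul 12
  have h2 := (HQ_e2.mul HQ_e2).add (HQ_e4.smul (-1))
  have h3 : (fun τ => (12 : ℂ) * D E2 τ) = fun τ => E2 τ * E2 τ + -1 * E₄ τ := by
    funext τ
    have h4 := Pool.Agent.Y949.J.ram2 τ
    rw [h4]
    ring
  rw [h3] at h1
  have h6 := h1.unique h2
  have h7 : (PowerSeries.C (-1 : ℂ)) = (-1 : PowerSeries ℂ) := by simp
  have h8 : (PowerSeries.C (12 : ℂ)) = (12 : PowerSeries ℂ) := map_ofNat _ 12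
  have h9 : PowerSeries.map (Int.castRingHom ℂ) 12 = 12 := map_ofNat _ 12
  rw [h7, h8] at h6
  rw [h9]
  linear_combination h6

end Pool.Agent.R498.EJ
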