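import Pool.Agent.R498.EJ.EJ8

set_option autoImplicit false

/-!
# Power sums over `𝔽_p`
-/

namespace Pool.Agent.R498.EJ

open Polynomial

section

variable (p : ℕ) [hp : Fact p.Prime]

theorem sum_pow_eq (i : ℕ) (hi : i < 2 * (p - 1)) (hp3 : 3 ≤ p) :
    ∑ x : ZMod p, x ^ i = if i = p - 1 then -1 else 0 := by
  split_ifs with h
  · subst h
    have h1 : ∀ x : ZMod p, x ^ (p - 1) = 1 - if x = 0 then 1 else 0 := by
      intro x
      split_ifs with hx
      · rw [hx, zero_pow (by omega), sub_self]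
      · rw [ZMod.pow_card_sub_one_eq_one hx, sub_zero]
    rw [Finset.sum_congr rfl (fun x _ => h1 x), Finset.sum_sub_distrib, Finset.sum_const, Finset.card_univ, ZMod.card,
      Finset.sum_ite_eq' Finset.univ (0 : ZMod p) (fun _ => (1 : ZMod p))]
    simp
  · rcases Nat.lt_or_ge i (p - 1) with h1 | h1
    · exact FiniteField.sum_pow_lt_card_sub_one _ i (by rw [ZMod.card]; exact h1)
    · have h2 : ∀ x : ZMod p, x ^ i = x ^ (i - p + 1) := by
        intro x
        have h3 : i = (i - p) + p := by omega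
        conv_lhs => rw [h3]
        rw [pow_add, ZMod.pow_card, pow_succ]
      rw [Finset.sum_congr rfl (fun x _ => h2 x)]
      exact FiniteField.sum_pow_lt_card_sub_one _ _ (by rw [ZMod.card]; omega)

theorem sum_eval (hp3 : 3 ≤ p) (P : (ZMod p)[X]) (hP : P.natDegree < 2 * (p - 1)) :
    ∑ x : ZMod p, P.eval x = -P.coeff (p - 1) := by
  have h1 : ∀ x : ZMod p, P.eval x = ∑ i ∈ Finset.range (2 * (p - 1)), P.coeff i * x ^ i := by
    intro x
    exact eval_eq_sum_range' hP x
  rw [Finset.sum_congr rfl (fun x _ => h1 x), Finset.sum_comm]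
  have h2 : ∀ i ∈ Finset.range (2 * (p - 1)), ∑ x : ZMod p, P.coeff i * x ^ i =
      if i = p - 1 then -P.coeff (p - 1) else 0 := by
    intro i hi
    rw [← Finset.mul_sum, sum_pow_eq p i (Finset.mem_range.1 hi) hp3]
    split_ifs with h
    · rw [h]
      ring
    · ring
  rw [Finset.sum_congr rfl h2, Finset.sum_ite_eq' (Finset.range (2 * (p - 1))) (p - 1), if_pos]
  rw [Finset.mem_range]
  omega

theorem natDegree_cub_pow {A : Type*} [CommRing A] (a b : A) (N : ℕ) : (cub a b ^ N).natDegree ≤ 3 * N := by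
  have h1 : (cub a b).natDegree ≤ 3 := by
    unfold cub
    compute_degree
  calc (cub a b ^ N).natDegree ≤ N * (cub a b).natDegree := natDegree_pow_le
    _ ≤ N * 3 := Nat.mul_le_mul_left _ h1
    _ = 3 * N := by ring

theorem eval_cub {A : Type*} [CommRing A] (a b x : A) : (cub a b).eval x = x ^ 3 + a * x + b := by
  unfold cub
  simp

theorem hs_eq_sum (N : ℕ) (hN : p = 2 * N + 1) (hp5 : 5 ≤ p) (a b : ZMod p) :
    (cub a b ^ N).coeff (p - 1) = -∑ x : ZMod p, (x ^ 3 + a * x + b) ^ N := by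
  have h := sum_eval p (by omega) (cub a b ^ N) (lt_of_le_of_lt (natDegree_cub_pow a b N) (by omega))
  simp only [eval_pow, eval_cub] at h
  rw [h, neg_neg]

/-- nodal case -/
theorem hs_node (N : ℕ) (hN : p = 2 * N + 1) (hp5 : 5 ≤ p) (a b : ZMod p) (ha : 48 * a = -1) (hb : 864 * b = 1) :
    (cub a b ^ N).coeff (p - 1) ≠ 0 := by
  have h2 : (2 : ZMod p) ≠ 0 := by
    intro h
    have h1 : ((2 : ℕ) : ZMod p) = 0 := by exact_mod_cast h
    rw [ZMod.natCast_eq_zero_iff] at h1
    have := Nat.le_of_dvd (by norm_num) h1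
    omega
  have h3 : (3 : ZMod p) ≠ 0 := by
    intro h
    have h1 : ((3 : ℕ) : ZMod p) = 0 := by exact_mod_cast h
    rw [ZMod.natCast_eq_zero_iff] at h1
    have := Nat.le_of_dvd (by norm_num) h1
    omega
  have hNne : N ≠ 0 := by omega
  obtain ⟨u, hu⟩ : ∃ u : ZMod p, 12 * u = 1 := ⟨(12)⁻¹, mul_inv_cancel₀ (by
    have : (12 : ZMod p) = 2 * 2 * 3 := by norm_num
    rw [this]
    exact mul_ne_zero (mul_ne_zero h2 h2) h3)⟩
  rw [hs_eq_sum p N hN hp5, neg_ne_zero]
  have ha2 : a = -3 * u ^ 2 := by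
    linear_combination (3 * u ^ 2) * ha - a * (12 * u + 1) * hu
  have hb2 : b = 2 * u ^ 3 := by
    linear_combination (2 * u ^ 3) * hb - b * (144 * u ^ 2 + 12 * u + 1) * hu
  have hf : ∀ x : ZMod p, (x ^ 3 + a * x + b) ^ N = (x + 2 * u) ^ N - if x = u then (3 * u) ^ N else 0 := by
    intro x
    have h4 : x ^ 3 + a * x + b = (x - u) ^ 2 * (x + 2 * u) := by
      rw [ha2, hb2]
      ring
    rw [h4, mul_pow, ← pow_mul]
    have h5 : 2 * N = p - 1 := by omega
    rw [h5]
    split_ifs with hx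
    · rw [hx, sub_self, zero_pow (by omega)]
      ring
    · rw [ZMod.pow_card_sub_one_eq_one (sub_ne_zero.2 hx)]
      ring
  rw [Finset.sum_congr rfl (fun x _ => hf x), Finset.sum_sub_distrib, Finset.sum_ite_eq' Finset.univ u,
    if_pos (Finset.mem_univ _)]
  have hs : ∑ x : ZMod p, (x + 2 * u) ^ N = ∑ x : ZMod p, x ^ N :=
    Fintype.sum_equiv (Equiv.addRight (2 * u)) _ _ (fun x => rfl)
  rw [hs, FiniteField.sum_pow_lt_card_sub_one _ N (by rw [ZMod.card]; omega), zero_sub, neg_ne_zero]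
  apply pow_ne_zero
  apply mul_ne_zero h3
  intro h
  rw [h, mul_zero] at hu
  exact zero_ne_one hu

/-- scaling -/
theorem scale {A : Type*} [CommRing A] (a b s : A) (N m : ℕ) :
    (cub (a * s ^ 2) (b * s ^ 3) ^ N).coeff m * s ^ m = s ^ (3 * N) * (cub a b ^ N).coeff m := by
  have h1 : (cub (a * s ^ 2) (b * s ^ 3)).comp (C s * X) = C (s ^ 3) * cub a b := by
    unfold cub
    simp only [add_comp, mul_comp, pow_comp, X_comp, C_comp, map_mul, map_pow]
    ring
  have h2 : ((cub (a * s ^ 2) (b * s ^ 3)) ^ N).comp (C s * X) = C (s ^ (3 * N)) * cub a b ^ N := by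
    rw [pow_comp, h1, mul_pow, ← map_pow, ← pow_mul]
  have h3 := congrArg (fun P => P.coeff m) h2
  simp only [comp_C_mul_X_coeff, coeff_C_mul] at h3
  exact h3

theorem map_cub {A B : Type*} [CommRing A] [CommRing B] (φ : A →+* B) (a b : A) (N m : ℕ) :
    φ ((cub a b ^ N).coeff m) = (cub (φ a) (φ b) ^ N).coeff m := by
  rw [← coeff_map, Polynomial.map_pow]
  congr 2
  unfold cub
  simp

end

end Pool.Agent.R498.EJ
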