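import Pool.Agent.R498.EJ.EJ7
import Pool.Agent.R498.EJ.EJ9

set_option autoImplicit false

/-!
# The Hasse invariant and the coefficient of `q^p` of `E₄/(j - c)` modulo `p`
-/

namespace Pool.Agent.R498.EJ

open Polynomial

/-- the Hasse invariant of `y² = x³ - 3 c (c - 1728) x - 2 c (c - 1728)²` -/
noncomputable def hs {A : Type*} [CommRing A] (p N : ℕ) (c : A) : A :=
  (cub (-3 * (c * (c - 1728))) (-2 * (c * (c - 1728) ^ 2)) ^ N).coeff (p - 1)

theorem map_hs {A B : Type*} [CommRing A] [CommRing B] (φ : A →+* B) (p N : ℕ) (c : A) :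
    φ (hs p N c) = hs p N (φ c) := by
  unfold hs
  rw [map_cub]
  simp only [map_mul, map_neg, map_sub, map_pow, map_ofNat]

section

variable (p : ℕ) [hp : Fact p.Prime] (N : ℕ) (hN : p = 2 * N + 1) (hp5 : 5 ≤ p) (r : ZMod p) (hr : 1728 * r = 1)

include hp5 in
theorem num_ne (n : ℕ) (h : n = 2 ∨ n = 3 ∨ n = 4) : ((n : ℕ) : ZMod p) ≠ 0 := by
  intro h1
  rw [ZMod.natCast_eq_zero_iff] at h1
  have := Nat.le_of_dvd (by omega) h1
  omega

include hN hp5 in
theorem hasse_sq (G : (ZMod p)[X])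
    (hk : ∀ k : ℕ, (ev (ramL r hr).J G * (ramL r hr).U).coeff (-(k + 1)) = if k = p - 1 then 1 else 0) :
    ∃ l : ZMod p, l ≠ 0 ∧ (hs p N (X : (ZMod p)[X])) ^ 2 = C l * G := by
  obtain ⟨j, hj1, hj2⟩ := exJ r hr
  obtain ⟨u, hu1, hu2⟩ := exU r hr
  have : CharP (LaurentSeries (ZMod p)) p :=
    charP_of_injective_ringHom (HahnSeries.C_injective (Γ := ℤ) (R := ZMod p)) p
  obtain ⟨M, hM⟩ : ∃ M, N = M + 1 := ⟨N - 1, by omega⟩
  have hpM : p = 2 * M + 3 := by omega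
  have h2 : (2 : ZMod p) ≠ 0 := by exact_mod_cast num_ne p hp5 2 (Or.inl rfl)
  have h3 : (3 : ZMod p) ≠ 0 := by exact_mod_cast num_ne p hp5 3 (Or.inr (Or.inl rfl))
  -- the ingredients
  have hha := (ramL r hr).ha
  have hhb := (ramL r hr).hb
  have hhc := (ramL r hr).hc
  have hhr := (ramL r hr).hr
  have hUU := (ramL r hr).hbUU
  have hcU := (ramL r hr).hcU
  have hJK := ev_K r hr
  obtain ⟨e, he⟩ : ∃ e, e = (ramL r hr).a := ⟨_, rfl⟩
  obtain ⟨E4, hE4⟩ : ∃ E4, E4 = (ramL r hr).b := ⟨_, rfl⟩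
  obtain ⟨E6, hE6⟩ : ∃ E6, E6 = (ramL r hr).c := ⟨_, rfl⟩
  obtain ⟨rL, hrL⟩ : ∃ rL, rL = (ramL r hr).r := ⟨_, rfl⟩
  obtain ⟨U, hU⟩ : ∃ U, U = (ramL r hr).U := ⟨_, rfl⟩
  obtain ⟨J, hJ⟩ : ∃ J, J = (ramL r hr).J := ⟨_, rfl⟩
  obtain ⟨K, hK⟩ : ∃ K, K = (ramL r hr).K := ⟨_, rfl⟩
  have ht : ∀ x, (ramL r hr).t x = TH x := fun _ => rfl
  rw [← hJ, ← hU] at hk
  rw [← hJ] at hj2
  rw [← hU] at hu2
  rw [ht, ← he, ← hE4] at hha
  rw [ht, ← he, ← hE4, ← hE6] at hhb
  rw [ht, ← he, ← hE4, ← hE6] at hhc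
  rw [← hrL] at hhr
  rw [← hE4, ← hU, ← hJ, ← hK] at hUU
  rw [← hE4, ← hE6, ← hU, ← hK] at hcU
  rw [← hJ, ← hK] at hJK
  have hrC : rL = HahnSeries.C r := hrL
  have hTr : ∀ x, TH (rL * x) = rL * TH x := by
    intro x
    rw [TH_mul, hrC, TH_C]
    ring
  have hTn : ∀ (n : ℕ) (x : LaurentSeries (ZMod p)), TH ((n : LaurentSeries (ZMod p)) * x) = n * TH x := by
    intro n x
    rw [TH_mul, TH_nat]
    ring
  obtain ⟨a0, ha0⟩ : ∃ a0, a0 = -(36 * (rL * E4)) := ⟨_, rfl⟩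
  obtain ⟨b0, hb0⟩ : ∃ b0, b0 = 2 * (rL * E6) := ⟨_, rfl⟩
  have hTa : TH a0 = -(36 * (rL * TH E4)) := by
    have h := hTn 36 (rL * E4)
    push_cast at h
    rw [ha0, map_neg, h, hTr]
  have hTb : TH b0 = 2 * (rL * TH E6) := by
    have h := hTn 2 (rL * E6)
    push_cast at h
    rw [hb0, h, hTr]
  have hg := gm2 p M hpM (TH (R := ZMod p)) TH_mul a0 b0 e (by
      rw [hTa, ha0, hb0]
      linear_combination (-36 * rL) * hhb) (by
      rw [hTb, ha0, hb0]
      linear_combination 6 * rL * hhc + 6 * rL * E4 ^ 2 * hhr) (by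
      rw [ha0]
      linear_combination hha + E4 * hhr)
  rw [← hM] at hg
  obtain ⟨h0, hh0⟩ : ∃ h0, h0 = (cub a0 b0 ^ N).coeff (p - 1) := ⟨_, rfl⟩
  rw [← hh0] at hg
  have hT2 : TH (TH h0) = 0 := by
    have h144 : ((144 : LaurentSeries (ZMod p))) * (rL * 12) = 1 := by linear_combination hhr
    linear_combination (rL * 12) * hg - TH (TH h0) * h144
  -- power series
  obtain ⟨h0', hh0'⟩ : ∃ h, h = (cub (PowerSeries.C (-(36 * r)) * e4R (ZMod p)) (PowerSeries.C (2 * r) * e6R (ZMod p)) ^ N).coeff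
    (p - 1) := ⟨_, rfl⟩
  have hio : h0 = io h0' := by
    have hC : ∀ x : ZMod p, io (PowerSeries.C x) = HahnSeries.C x := fun x => HahnSeries.ofPowerSeries_C x
    have e4' : io (e4R (ZMod p)) = E4 := hE4.symm
    have e6' : io (e6R (ZMod p)) = E6 := hE6.symm
    rw [hh0', map_cub, hh0, map_mul, map_mul, hC, hC, e4', e6', ha0, hb0, map_neg, map_mul, map_mul, map_ofNat, map_ofNat,
      ← hrC]
    congr 3
    congr 1
    · ring
    · ring
  have hc0 : PowerSeries.constantCoeff h0' ≠ 0 := by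
    rw [hh0', map_cub, map_mul, map_mul, e4_0, e6_0, PowerSeries.constantCoeff_C, PowerSeries.constantCoeff_C]
    apply hs_node p N hN hp5
    · linear_combination (-1 : ZMod p) * hr
    · linear_combination hr
  -- scaling
  obtain ⟨s, hs0⟩ : ∃ s, s = -(12 * U) := ⟨_, rfl⟩
  have hUne : U ≠ 0 := by
    intro h
    have h1 := qio_self (-1) u
    rw [← hu2, h, HahnSeries.coeff_zero, hu1] at h1
    exact zero_ne_one h1
  have h12 : (12 : LaurentSeries (ZMod p)) ≠ 0 := by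
    intro h
    have h1 : (1 : LaurentSeries (ZMod p)) = 0 := by linear_combination (-1 : LaurentSeries (ZMod p)) * hhr + 144 * rL * h
    exact one_ne_zero h1
  have hsne : s ≠ 0 := by
    rw [hs0]
    exact neg_ne_zero.2 (mul_ne_zero h12 hUne)
  have hsc := scale a0 b0 s N (p - 1)
  have hα : a0 * s ^ 2 = -3 * (J * (J - 1728)) := by
    rw [ha0, hs0, hJK]
    linear_combination (-3 * (1728 * rL)) * hUU - 3 * J * K * hhr
  have hβ : b0 * s ^ 3 = -2 * (J * (J - 1728) ^ 2) := by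
    rw [hb0, hs0, hJK]
    linear_combination (-2 * (1728 * rL) * U ^ 2) * hcU - 2 * (1728 * rL) * K * hUU - 2 * J * K ^ 2 * hhr
  rw [hα, hβ, ← hh0] at hsc
  have hHJ : hs p N J = s ^ N * h0 := by
    have h1 : hs p N J * s ^ (p - 1) = s ^ (3 * N) * h0 := hsc
    have h4 : p - 1 = 2 * N := by omega
    have h5 : 3 * N = N + 2 * N := by ring
    rw [h4, h5, pow_add] at h1
    have h6 : s ^ (2 * N) ≠ 0 := pow_ne_zero _ hsne
    apply mul_right_cancel₀ h6
    rw [h1]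
    ring
  have hevH : ev J (hs p N (X : (ZMod p)[X])) = hs p N J := by
    rw [map_hs, ev_X]
  have h12p : (12 : LaurentSeries (ZMod p)) ^ (p - 1) = 1 := by
    have h12z : (12 : ZMod p) ≠ 0 := by
      have : (12 : ZMod p) = 2 * 2 * 3 := by norm_num
      rw [this]
      exact mul_ne_zero (mul_ne_zero h2 h2) h3
    have h1 := ZMod.pow_card_sub_one_eq_one h12z
    have h4 := congrArg (HahnSeries.C (Γ := ℤ)) h1
    rw [map_pow, map_one, map_ofNat] at h4
    exact h4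
  have hgeq : ev J ((hs p N (X : (ZMod p)[X])) ^ 2) * U = U ^ p * h0 ^ 2 := by
    rw [map_pow, hevH, hHJ, hs0]
    have h4 : (-(12 * U)) ^ N * h0 = (-(12 * U)) ^ N * h0 := rfl
    have h5 : ((-(12 * U)) ^ N * h0) ^ 2 * U = ((-(12 * U)) ^ 2) ^ N * h0 ^ 2 * U := by
      rw [mul_pow, ← pow_mul, ← pow_mul, mul_comm N 2]
    have h6 : (-(12 * U)) ^ 2 = (12 * U) ^ 2 := by ring
    have h7 : ((12 * U) ^ 2) ^ N = 12 ^ (p - 1) * U ^ (p - 1) := by
      rw [← pow_mul, mul_pow]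
      congr 2 <;> omega
    have h8 : U ^ p = U ^ (p - 1) * U := by
      rw [← pow_succ]
      congr 1
      omega
    rw [h5, h6, h7, h12p, h8]
    ring
  have hTU : TH (U ^ p) = 0 := by
    have h1 := TH_pow U (p - 1)
    rw [Nat.sub_add_cancel (by omega)] at h1
    rw [h1, CharP.cast_eq_zero]
    ring
  have hT3 : TH (TH (TH (U ^ p * h0 ^ 2))) = 0 := by
    have h1 : TH (U ^ p * h0 ^ 2) = U ^ p * (2 * (h0 * TH h0)) := by
      rw [TH_mul, hTU, pow_two, TH_mul]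
      ring
    have h4 : TH (U ^ p * (2 * (h0 * TH h0))) = U ^ p * (2 * (TH h0 * TH h0)) := by
      have h5 := hTn 2 (h0 * TH h0)
      push_cast at h5
      rw [TH_mul, hTU, h5, TH_mul, hT2]
      ring
    have h6 : TH (U ^ p * (2 * (TH h0 * TH h0))) = 0 := by
      have h5 := hTn 2 (TH h0 * TH h0)
      push_cast at h5
      rw [TH_mul, hTU, h5, TH_mul, hT2]
      ring
    rw [h1, h4, h6]
  have hq : U ^ p * h0 ^ 2 = qp (-(p : ℤ)) * io (u ^ p * h0' ^ 2) := by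
    rw [hu2, hio, mul_pow, qp_pow, map_mul, map_pow, map_pow]
    have h1 : (p : ℤ) * -1 = -p := by ring
    rw [h1]
    ring
  refine ⟨PowerSeries.constantCoeff h0' ^ 2, pow_ne_zero _ hc0, ?_⟩
  rw [← sub_eq_zero]
  apply eq_zero_of_coeff J U j u 1 hj1 hu1 hj2 hu2
  intro n
  rw [map_sub, sub_mul, HahnSeries.coeff_sub, hgeq, map_mul, ev_C, mul_assoc, coeffC, hk n]
  by_cases hnp : n = p - 1
  · rw [if_pos hnp]
    have h1 : (-((n : ℤ) + 1)) = -(p : ℤ) := by
      have := hp.out.one_lt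
      omega
    rw [h1, hq, qio_self, map_mul, map_pow, map_pow, hu1]
    ring
  · rw [if_neg hnp, mul_zero, sub_zero]
    rcases Nat.lt_or_ge n p with h | h
    · have h1 := congrArg (fun f => HahnSeries.coeff f (-((n : ℤ) + 1))) hT3
      simp only [TH_coeff, HahnSeries.coeff_zero] at h1
      have h4 : ((-((n : ℤ) + 1) : ℤ) : ZMod p) ≠ 0 := by
        intro h5
        rw [ZMod.intCast_zmod_eq_zero_iff_dvd] at h5
        rw [Int.dvd_neg] at h5
        have h6 := Int.le_of_dvd (by omega) h5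
        have h7 : n = p - 1 := by omega
        exact hnp h7
      exact (mul_eq_zero.1 ((mul_eq_zero.1 ((mul_eq_zero.1 h1).resolve_left h4)).resolve_left h4)).resolve_left h4
    · rw [hq, qio_lt _ _ _ (by omega)]

include hN hp5 in
theorem eval_zero_of_hasse (G : (ZMod p)[X])
    (hk : ∀ k : ℕ, (ev (ramL r hr).J G * (ramL r hr).U).coeff (-(k + 1)) = if k = p - 1 then 1 else 0) (c : ZMod p)
    (hc : hs p N c = 0) : G.eval c = 0 := by
  obtain ⟨l, hl, h⟩ := hasse_sq p N hN hp5 r hr G hk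
  have h1 := congrArg (Polynomial.evalRingHom c) h
  rw [map_pow, map_hs, map_mul] at h1
  have hX : Polynomial.evalRingHom c X = c := by simp
  rw [hX, hc, coe_evalRingHom, eval_C] at h1
  have h2 : l * G.eval c = 0 := by
    rw [← h1]
    ring
  exact (mul_eq_zero.1 h2).resolve_left hl

end

end Pool.Agent.R498.EJ
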