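import Pool.Agent.R498.EJ.EJ10

set_option autoImplicit false

/-!
# Counting points modulo `p`
-/

namespace Pool.Agent.R498.EJ

open Polynomial

/-- `a_p(C) = p + 1 - #C(𝔽_p)` for a Weierstrass equation with integral coefficients; the points are the
affine solutions modulo `p` and the point at infinity -/
noncomputable def trace (W : WeierstrassCurve ℤ) (p : ℕ) : ℤ :=
  p + 1 - (1 + {P : ZMod p × ZMod p | P.2 ^ 2 + W.a₁ * P.1 * P.2 + W.a₃ * P.2 =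
    P.1 ^ 3 + W.a₂ * P.1 ^ 2 + W.a₄ * P.1 + W.a₆}.ncard : ℕ)

section

variable (p : ℕ) [hp : Fact p.Prime]

theorem ncard_eq (a1 a2 a3 a4 a6 : ZMod p) :
    {P : ZMod p × ZMod p | P.2 ^ 2 + a1 * P.1 * P.2 + a3 * P.2 = P.1 ^ 3 + a2 * P.1 ^ 2 + a4 * P.1 + a6}.ncard =
      ∑ x : ZMod p, (Finset.univ.filter (fun y : ZMod p => y ^ 2 + a1 * x * y + a3 * y =
        x ^ 3 + a2 * x ^ 2 + a4 * x + a6)).card := by
  classical
  rw [Set.ncard_eq_toFinset_card', Set.toFinset_setOf]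
  rw [← Finset.univ_product_univ, Finset.card_filter, Finset.sum_product]
  apply Finset.sum_congr rfl
  intro x _
  rw [Finset.card_filter]

theorem count_y (hp3 : 3 ≤ p) (h g : ZMod p) :
    ((Finset.univ.filter (fun y : ZMod p => y ^ 2 + h * y = g)).card : ZMod p) = 1 + (4 * g + h ^ 2) ^ (p / 2) := by
  classical
  have h2 : (2 : ZMod p) ≠ 0 := by
    intro h
    have h1 : ((2 : ℕ) : ZMod p) = 0 := by exact_mod_cast h
    rw [ZMod.natCast_eq_zero_iff] at h1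
    have := Nat.le_of_dvd (by norm_num) h1
    omega
  have hF : ringChar (ZMod p) ≠ 2 := by
    rw [ZMod.ringChar_zmod_n]
    omega
  have h1 := quadraticChar_card_sqrts hF (4 * g + h ^ 2)
  have h3 : (Finset.univ.filter (fun y : ZMod p => y ^ 2 + h * y = g)).card =
      {x : ZMod p | x ^ 2 = 4 * g + h ^ 2}.toFinset.card := by
    apply Finset.card_bij (fun y _ => 2 * y + h)
    · intro y hy
      rw [Finset.mem_filter] at hy
      rw [Set.mem_toFinset]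
      show (2 * y + h) ^ 2 = 4 * g + h ^ 2
      linear_combination 4 * hy.2
    · intro y _ y' _ hyy
      apply mul_left_cancel₀ h2
      linear_combination hyy
    · intro z hz
      rw [Set.mem_toFinset] at hz
      have hz' : z ^ 2 = 4 * g + h ^ 2 := hz
      have h22 : (2 : ZMod p) * 2⁻¹ = 1 := mul_inv_cancel₀ h2
      refine ⟨(z - h) * 2⁻¹, ?_, ?_⟩
      · rw [Finset.mem_filter]
        refine ⟨Finset.mem_univ _, ?_⟩
        have h4 : (4 : ZMod p) ≠ 0 := by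
          have : (4 : ZMod p) = 2 * 2 := by norm_num
          rw [this]
          exact mul_ne_zero h2 h2
        apply mul_left_cancel₀ h4
        linear_combination hz' + ((z - h) ^ 2 * (2 * 2⁻¹ + 1) + 2 * h * (z - h)) * h22
      · linear_combination (z - h) * h22
  rw [h3]
  have h4 := congrArg (Int.cast (R := ZMod p)) h1
  push_cast at h4
  rw [quadraticChar_eq_pow_of_char_ne_two' hF, ZMod.card] at h4
  rw [h4]
  ring

/-- the trace modulo `p` -/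
theorem trace_mod (hp3 : 3 ≤ p) (W : WeierstrassCurve ℤ) : ((trace W p : ℤ) : ZMod p) =
    -∑ x : ZMod p, (4 * x ^ 3 + W.b₂ * x ^ 2 + 2 * W.b₄ * x + W.b₆) ^ (p / 2) := by
  unfold trace
  rw [ncard_eq]
  push_cast
  have h : ∀ x : ZMod p, ((Finset.univ.filter (fun y : ZMod p => y ^ 2 + (W.a₁ : ZMod p) * x * y + (W.a₃ : ZMod p) * y =
        x ^ 3 + (W.a₂ : ZMod p) * x ^ 2 + (W.a₄ : ZMod p) * x + (W.a₆ : ZMod p))).card : ZMod p) =
      1 + (4 * x ^ 3 + W.b₂ * x ^ 2 + 2 * W.b₄ * x + W.b₆) ^ (p / 2) := by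
    intro x
    have h1 := count_y p hp3 ((W.a₁ : ZMod p) * x + W.a₃) (x ^ 3 + (W.a₂ : ZMod p) * x ^ 2 + (W.a₄ : ZMod p) * x + (W.a₆ : ZMod p))
    have h2 : ∀ y : ZMod p, y ^ 2 + ((W.a₁ : ZMod p) * x + W.a₃) * y = y ^ 2 + (W.a₁ : ZMod p) * x * y + (W.a₃ : ZMod p) * y := by
      intro y
      ring
    simp only [h2] at h1
    rw [h1]
    congr 2
    unfold WeierstrassCurve.b₂ WeierstrassCurve.b₄ WeierstrassCurve.b₆
    push_cast
    ring
  rw [Finset.sum_congr rfl (fun x _ => h x), Finset.sum_add_distrib, Finset.sum_const, Finset.card_univ, ZMod.card]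
  simp

theorem sum_transform (N : ℕ) (b2 b4 b6 : ZMod p) (h6 : (36 : ZMod p) ≠ 0) (c4 c6 : ZMod p)
    (hc4 : c4 = b2 ^ 2 - 24 * b4) (hc6 : c6 = -b2 ^ 3 + 36 * b2 * b4 - 216 * b6)
    (hs : ∑ x : ZMod p, (4 * x ^ 3 + b2 * x ^ 2 + 2 * b4 * x + b6) ^ N = 0) :
    ∑ x : ZMod p, (x ^ 3 - 27 * c4 * x - 54 * c6) ^ N = 0 := by
  have he : ∑ x : ZMod p, ((36 * x + 3 * b2) ^ 3 - 27 * c4 * (36 * x + 3 * b2) - 54 * c6) ^ N =
      ∑ x : ZMod p, (x ^ 3 - 27 * c4 * x - 54 * c6) ^ N :=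
    Fintype.sum_equiv ((Equiv.mulLeft₀ (36 : ZMod p) h6).trans (Equiv.addRight (3 * b2))) _ _ (fun x => rfl)
  rw [← he]
  have h : ∀ x : ZMod p, ((36 * x + 3 * b2) ^ 3 - 27 * c4 * (36 * x + 3 * b2) - 54 * c6) ^ N =
      11664 ^ N * (4 * x ^ 3 + b2 * x ^ 2 + 2 * b4 * x + b6) ^ N := by
    intro x
    rw [← mul_pow, hc4, hc6]
    congr 1
    ring
  rw [Finset.sum_congr rfl (fun x _ => h x), ← Finset.mul_sum, hs, mul_zero]

theorem hs_zero (N : ℕ) (hN : p = 2 * N + 1) (hp5 : 5 ≤ p) (c4 c6 D c : ZMod p) (hD : 1728 * D = c4 ^ 3 - c6 ^ 2)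
    (hc : c * D = c4 ^ 3) (hD0 : D ≠ 0) (h4 : c4 ≠ 0) (h6 : c6 ≠ 0)
    (hsum : ∑ x : ZMod p, (x ^ 3 - 27 * c4 * x - 54 * c6) ^ N = 0) : hs p N c = 0 := by
  have h3 : (3 : ZMod p) ≠ 0 := by exact_mod_cast num_ne p hp5 3 (Or.inr (Or.inl rfl))
  have hk : (c - 1728) * D = c6 ^ 2 := by linear_combination hc - hD
  have hc0 : c ≠ 0 := by
    intro h
    rw [h, zero_mul] at hc
    exact (pow_ne_zero 3 h4) hc.symm
  have hk0 : c - 1728 ≠ 0 := by
    intro h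
    rw [h, zero_mul] at hk
    exact (pow_ne_zero 2 h6) hk.symm
  have h36 : 3 * c6 ≠ 0 := mul_ne_zero h3 h6
  obtain ⟨m, hm⟩ : ∃ m : ZMod p, m * (3 * c6) = (c - 1728) * c4 :=
    ⟨(c - 1728) * c4 * (3 * c6)⁻¹, by rw [mul_assoc, inv_mul_cancel₀ h36, mul_one]⟩
  have hm0 : m ≠ 0 := by
    intro h
    rw [h, zero_mul] at hm
    exact (mul_ne_zero hk0 h4) hm.symm
  -- `c k = 9 c4 m²`, `c k² = 27 c6 m³`
  have e1 : c * (c - 1728) = 9 * c4 * m ^ 2 := by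
    have h1 : (c6 ^ 2 * D) ≠ 0 := mul_ne_zero (pow_ne_zero _ h6) hD0
    apply mul_left_cancel₀ h1
    have h2 : (m * (3 * c6)) ^ 2 = ((c - 1728) * c4) ^ 2 := by rw [hm]
    linear_combination (c - 1728) * c6 ^ 2 * hc - (c - 1728) * c4 ^ 3 * hk - c4 * D * h2
  have e2 : c * (c - 1728) ^ 2 = 27 * c6 * m ^ 3 := by
    have h1 : 3 * c6 ≠ 0 := h36
    apply mul_left_cancel₀ h1
    have h5 : c * (c - 1728) ^ 2 * c4 = 9 * c4 * m ^ 2 * ((c - 1728) * c4) := by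
      linear_combination ((c - 1728) * c4) * e1
    apply mul_left_cancel₀ h4
    linear_combination 3 * c6 * h5 - 27 * c4 * m ^ 2 * c6 * hm
  unfold hs
  rw [hs_eq_sum p N hN hp5]
  have he : ∑ x : ZMod p, ((m * x) ^ 3 + -3 * (c * (c - 1728)) * (m * x) + -2 * (c * (c - 1728) ^ 2)) ^ N =
      ∑ x : ZMod p, (x ^ 3 + -3 * (c * (c - 1728)) * x + -2 * (c * (c - 1728) ^ 2)) ^ N :=
    Fintype.sum_equiv (Equiv.mulLeft₀ m hm0) _ _ (fun x => rfl)
  rw [← he]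
  have h : ∀ x : ZMod p, ((m * x) ^ 3 + -3 * (c * (c - 1728)) * (m * x) + -2 * (c * (c - 1728) ^ 2)) ^ N =
      (m ^ 3) ^ N * (x ^ 3 - 27 * c4 * x - 54 * c6) ^ N := by
    intro x
    rw [← mul_pow]
    congr 1
    linear_combination (-3 * m * x) * e1 - 2 * e2
  rw [Finset.sum_congr rfl (fun x _ => h x), ← Finset.mul_sum, hsum, mul_zero, neg_zero]

end

theorem two_odd : ∀ a2 a3 a4 a6 : ZMod 2, Odd (∑ x : ZMod 2, (Finset.univ.filter (fun y : ZMod 2 => y ^ 2 + 1 * x * y + a3 * y =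
        x ^ 3 + a2 * x ^ 2 + a4 * x + a6)).card) := by
  decide

end Pool.Agent.R498.EJ
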