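import Pool.Agent.R498.EJ.EJ11

set_option autoImplicit false

/-!
# The congruence modulo `p²`
-/

namespace Pool.Agent.R498.EJ

open Polynomial

section

variable {R S : Type*} [CommRing R] [CommRing S] (φ : R →+* S)

theorem map_e4R : PowerSeries.map φ (e4R R) = e4R S := by
  ext n
  simp [e4R, PowerSeries.coeff_map]

theorem map_e6R : PowerSeries.map φ (e6R R) = e6R S := by
  ext n
  simp [e6R, PowerSeries.coeff_map]

theorem map_dl (r : R) : PowerSeries.map φ (dl r) = dl (φ r) := by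
  unfold dl
  rw [map_mul, map_sub, map_pow, map_pow, map_e4R, map_e6R, PowerSeries.map_C]

theorem map_Fc (r c : R) : PowerSeries.map φ (Fc r c) = Fc (φ r) (φ c) := by
  have h1 := congrArg (PowerSeries.map φ) (Fc_spec r c)
  rw [map_mul, map_sub, map_mul, map_mul, map_pow, map_e4R, map_dl, PowerSeries.map_C] at h1
  have h2 := Fc_spec (φ r) (φ c)
  have h3 := PowerSeries.mul_invOfUnit (e4R S ^ 3 - PowerSeries.C (φ c) * dl (φ r)) 1 (by
    rw [map_sub, map_mul, map_pow, e4_0, dl_0]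
    simp)
  generalize PowerSeries.invOfUnit (e4R S ^ 3 - PowerSeries.C (φ c) * dl (φ r)) 1 = I at h3
  generalize e4R S ^ 3 - PowerSeries.C (φ c) * dl (φ r) = Q at h1 h2 h3
  linear_combination I * h1 - I * h2 - (PowerSeries.map φ (Fc r c) - Fc (φ r) (φ c)) * h3

end

section

variable (p : ℕ) [hp : Fact p.Prime]

/-- reduction modulo `p` -/
def red : ZMod (p ^ 2) →+* ZMod p := ZMod.castHom (dvd_pow_self p two_ne_zero) (ZMod p)

theorem red_ker (x : ZMod (p ^ 2)) (hx : red p x = 0) : ∃ k : ℕ, x = ((p * k : ℕ) : ZMod (p ^ 2)) := by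
  have : NeZero (p ^ 2) := ⟨pow_ne_zero _ hp.out.ne_zero⟩
  have h1 : ((x.val : ℕ) : ZMod (p ^ 2)) = x := ZMod.natCast_zmod_val x
  have h2 : red p ((x.val : ℕ) : ZMod (p ^ 2)) = 0 := by rw [h1, hx]
  rw [map_natCast, ZMod.natCast_eq_zero_iff] at h2
  obtain ⟨k, hk⟩ := h2
  exact ⟨k, by rw [← hk, h1]⟩

theorem red_mul (x y : ZMod (p ^ 2)) (hx : red p x = 0) (hy : red p y = 0) : x * y = 0 := by
  obtain ⟨k, rfl⟩ := red_ker p x hx
  obtain ⟨l, rfl⟩ := red_ker p y hy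
  rw [← Nat.cast_mul, ZMod.natCast_eq_zero_iff]
  exact ⟨k * l, by ring⟩

theorem red_unit (x : ZMod (p ^ 2)) (hx : red p x ≠ 0) : IsUnit x := by
  have : NeZero (p ^ 2) := ⟨pow_ne_zero _ hp.out.ne_zero⟩
  have h1 : ((x.val : ℕ) : ZMod (p ^ 2)) = x := ZMod.natCast_zmod_val x
  rw [← h1, ZMod.isUnit_iff_coprime]
  apply Nat.Coprime.pow_right
  rw [Nat.coprime_comm, Nat.Prime.coprime_iff_not_dvd hp.out]
  intro h
  apply hx
  rw [← h1, map_natCast, ZMod.natCast_eq_zero_iff]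
  exact h

theorem core (hp5 : 5 ≤ p) (W : WeierstrassCurve ℤ) (hΔ : ¬ (p : ℤ) ∣ W.Δ) (h4 : ¬ (p : ℤ) ∣ W.c₄) (h6 : ¬ (p : ℤ) ∣ W.c₆)
    (hss : (p : ℤ) ∣ trace W p) (r c : ZMod (p ^ 2)) (hr : 1728 * r = 1) (hc : c * ((W.Δ : ℤ) : ZMod (p ^ 2)) = ((W.c₄ : ℤ) : ZMod (p ^ 2)) ^ 3) :
    PowerSeries.coeff p (Fc r c) = 0 := by
  obtain ⟨N, hN⟩ : ∃ N, p = 2 * N + 1 := by
    obtain ⟨N, hN⟩ := hp.out.odd_of_ne_two (by omega)
    exact ⟨N, hN⟩
  have hD0 : ((W.Δ : ℤ) : ZMod p) ≠ 0 := by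
    rw [Ne, ZMod.intCast_zmod_eq_zero_iff_dvd]
    exact hΔ
  have h40 : ((W.c₄ : ℤ) : ZMod p) ≠ 0 := by
    rw [Ne, ZMod.intCast_zmod_eq_zero_iff_dvd]
    exact h4
  have h60 : ((W.c₆ : ℤ) : ZMod p) ≠ 0 := by
    rw [Ne, ZMod.intCast_zmod_eq_zero_iff_dvd]
    exact h6
  have hrel : (1728 : ℤ) * W.Δ = W.c₄ ^ 3 - W.c₆ ^ 2 := W.c_relation
  have hrelp : (1728 : ZMod p) * (W.Δ : ZMod p) = (W.c₄ : ZMod p) ^ 3 - (W.c₆ : ZMod p) ^ 2 := by
    exact_mod_cast congrArg (Int.cast (R := ZMod p)) hrel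
  -- reductions
  have hrp : (1728 : ZMod p) * red p r = 1 := by
    have h := congrArg (red p) hr
    rwa [map_mul, map_ofNat, map_one] at h
  have hcp : red p c * (W.Δ : ZMod p) = (W.c₄ : ZMod p) ^ 3 := by
    have h := congrArg (red p) hc
    rwa [map_mul, map_pow, map_intCast, map_intCast] at h
  have hkp : (red p c - 1728) * (W.Δ : ZMod p) = (W.c₆ : ZMod p) ^ 2 := by
    linear_combination hcp - hrelp
  have hc0 : red p c ≠ 0 := by
    intro h
    rw [h, zero_mul] at hcp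
    exact (pow_ne_zero 3 h40) hcp.symm
  have hk0 : red p c - 1728 ≠ 0 := by
    intro h
    rw [h, zero_mul] at hkp
    exact (pow_ne_zero 2 h60) hkp.symm
  -- the Hasse invariant vanishes
  have hN2 : p / 2 = N := by omega
  have htr := trace_mod p (by omega) W
  rw [(ZMod.intCast_zmod_eq_zero_iff_dvd _ _).2 hss, hN2, eq_comm, neg_eq_zero] at htr
  have h36 : (36 : ZMod p) ≠ 0 := by
    have h2 : (2 : ZMod p) ≠ 0 := by exact_mod_cast num_ne p hp5 2 (Or.inl rfl)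
    have h3 : (3 : ZMod p) ≠ 0 := by exact_mod_cast num_ne p hp5 3 (Or.inr (Or.inl rfl))
    have : (36 : ZMod p) = 2 * 2 * (3 * 3) := by norm_num
    rw [this]
    exact mul_ne_zero (mul_ne_zero h2 h2) (mul_ne_zero h3 h3)
  have hsum := sum_transform p N W.b₂ W.b₄ W.b₆ h36 W.c₄ W.c₆ (by
    rw [WeierstrassCurve.c₄]
    push_cast
    ring) (by
    rw [WeierstrassCurve.c₆]
    push_cast
    ring) htr
  have hhs := hs_zero p N hN hp5 W.c₄ W.c₆ W.Δ (red p c) hrelp hcp hD0 h40 h60 hsum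
  -- polynomials
  have hun : ∀ m : ℤ, ¬ (p : ℤ) ∣ m → IsUnit (m : ZMod (p ^ 2)) := by
    intro m hm
    apply red_unit p
    rw [map_intCast, Ne, ZMod.intCast_zmod_eq_zero_iff_dvd]
    exact hm
  have hp2 : ((p : ℕ) : ZMod (p ^ 2)) ^ 2 = 0 := by
    rw [← Nat.cast_pow]
    exact ZMod.natCast_self _
  obtain ⟨G, hG1, hG2, hG3⟩ := faber r hr (p - 1)
  have hDP := DP_eq_zero r hr p hp.out hp2 hun G hG1 hG3
  have hcoef := coeff_eq_eval r hr (p - 1) (by omega) (by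
    intro i hi
    have h := hun ((i + 1 : ℕ) : ℤ) (by
      intro h
      have := Int.le_of_dvd (by positivity) h
      omega)
    rwa [Int.cast_natCast] at h) G hG1 hG3 c
  rw [Nat.sub_add_cancel (by omega)] at hcoef
  obtain ⟨G', hG1', hG2', hG3'⟩ := faber (red p r) hrp (p - 1)
  have hcoef' := coeff_eq_eval (red p r) hrp (p - 1) (by omega) (by
    intro i hi
    rw [isUnit_iff_ne_zero, Ne, ZMod.natCast_eq_zero_iff]
    intro h
    have := Nat.le_of_dvd (by omega) h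
    omega) G' hG1' hG3' (red p c)
  rw [Nat.sub_add_cancel (by omega), eval_zero_of_hasse p N hN hp5 (red p r) hrp G' hG3' (red p c) hhs] at hcoef'
  have hred : red p (G.eval c) = 0 := by
    rw [← hcoef, ← PowerSeries.coeff_map, map_Fc, hcoef']
  rw [hcoef]
  exact lift_root p hp.out hp5 (red p) (red_mul p) (red_unit p) G hG1 hG2 hDP c hc0 (by
    rw [map_sub, map_ofNat]
    exact hk0) hred

end

end Pool.Agent.R498.EJ
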