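import Pool.Agent.R498.EJ.EJ12

set_option autoImplicit false

/-!
# Transfer to rational numbers
-/

namespace Pool.Agent.R498.EJ

open Polynomial

theorem transfer (p : ℕ) [hp : Fact p.Prime] (hp5 : 5 ≤ p) (W : WeierstrassCurve ℤ) (hΔ : ¬ (p : ℤ) ∣ W.Δ)
    (h4 : ¬ (p : ℤ) ∣ W.c₄) (h6 : ¬ (p : ℤ) ∣ W.c₆) (hss : (p : ℤ) ∣ trace W p) (c : ℚ) (hc : c * W.Δ = W.c₄ ^ 3) :
    ∃ A B : ℤ, ¬ (p : ℤ) ∣ B ∧ PowerSeries.coeff p (Fc (1 / 1728 : ℚ) c) * B = p ^ 2 * A := by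
  have hpZ : Prime (p : ℤ) := Nat.prime_iff_prime_int.1 hp.out
  have hΔ0 : W.Δ ≠ 0 := by
    intro h
    exact hΔ (by rw [h]; exact dvd_zero _)
  obtain ⟨B, hB⟩ : ∃ B : ℤ, B = 1728 * W.Δ := ⟨_, rfl⟩
  have hB0 : B ≠ 0 := by
    rw [hB]
    exact mul_ne_zero (by norm_num) hΔ0
  have h1728 : ¬ (p : ℤ) ∣ 1728 := by
    intro h
    have h2 : (1728 : ℤ) = 2 ^ 6 * 3 ^ 3 := by norm_num
    rw [h2] at h
    rcases hpZ.dvd_or_dvd h with h | h
    · have := Int.le_of_dvd (by norm_num) (hpZ.dvd_of_dvd_pow h)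
      omega
    · have := Int.le_of_dvd (by norm_num) (hpZ.dvd_of_dvd_pow h)
      omega
  have hBp : ¬ (p : ℤ) ∣ B := by
    rw [hB]
    intro h
    rcases hpZ.dvd_or_dvd h with h | h
    · exact h1728 h
    · exact hΔ h
  have hu1 : IsUnit (Int.castRingHom ℚ B) := by
    rw [isUnit_iff_ne_zero]
    simpa using hB0
  have hu2 : IsUnit (Int.castRingHom (ZMod (p ^ 2)) B) := by
    apply red_unit p
    rw [eq_intCast, map_intCast, Ne, ZMod.intCast_zmod_eq_zero_iff_dvd]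
    exact hBp
  obtain ⟨φ₁, hφ₁⟩ : ∃ φ : Localization.Away B →+* ℚ, ∀ x : ℤ, φ (algebraMap ℤ _ x) = (x : ℚ) :=
    ⟨IsLocalization.Away.lift B hu1, fun x => by rw [IsLocalization.Away.lift_eq]; simp⟩
  obtain ⟨φ₂, hφ₂⟩ : ∃ φ : Localization.Away B →+* ZMod (p ^ 2), ∀ x : ℤ, φ (algebraMap ℤ _ x) = (x : ZMod (p ^ 2)) :=
    ⟨IsLocalization.Away.lift B hu2, fun x => by rw [IsLocalization.Away.lift_eq]; simp⟩
  obtain ⟨u, hu⟩ : ∃ u : Localization.Away B, algebraMap ℤ (Localization.Away B) B * u = 1 :=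
    ⟨_, IsLocalization.Away.mul_invSelf B⟩
  obtain ⟨rL, hrL⟩ : ∃ r : Localization.Away B, r = algebraMap ℤ _ W.Δ * u := ⟨_, rfl⟩
  obtain ⟨cL, hcL⟩ : ∃ r : Localization.Away B, r = algebraMap ℤ _ (W.c₄ ^ 3 * 1728) * u := ⟨_, rfl⟩
  have hr1 : (1728 : Localization.Away B) * rL = 1 := by
    have h : algebraMap ℤ (Localization.Away B) B = 1728 * algebraMap ℤ _ W.Δ := by
      rw [hB, map_mul, map_ofNat]
    rw [h] at hu
    rw [hrL]
    linear_combination hu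
  have hc1 : cL * algebraMap ℤ (Localization.Away B) W.Δ = algebraMap ℤ (Localization.Away B) (W.c₄ ^ 3) := by
    have h : algebraMap ℤ (Localization.Away B) B = 1728 * algebraMap ℤ _ W.Δ := by
      rw [hB, map_mul, map_ofNat]
    rw [h] at hu
    rw [hcL, map_mul, map_ofNat]
    linear_combination algebraMap ℤ (Localization.Away B) (W.c₄ ^ 3) * hu
  obtain ⟨n, A, hA⟩ := IsLocalization.Away.surj B (PowerSeries.coeff p (Fc rL cL))
  -- the image in `ZMod (p ^ 2)`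
  have h2 := congrArg φ₂ hA
  rw [map_mul, ← PowerSeries.coeff_map, map_Fc, map_pow, hφ₂, hφ₂] at h2
  have hcore := core p hp5 W hΔ h4 h6 hss (φ₂ rL) (φ₂ cL) (by
    have h := congrArg φ₂ hr1
    rwa [map_mul, map_ofNat, map_one] at h) (by
    have h := congrArg φ₂ hc1
    rw [map_mul, hφ₂, hφ₂] at h
    rw [h]
    push_cast
    ring)
  rw [hcore, zero_mul, eq_comm, ZMod.intCast_zmod_eq_zero_iff_dvd] at h2
  obtain ⟨A', hA'⟩ := h2
  -- the image in `ℚ`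
  have h1 := congrArg φ₁ hA
  rw [map_mul, ← PowerSeries.coeff_map, map_Fc, map_pow, hφ₁, hφ₁] at h1
  have hr2 : φ₁ rL = 1 / 1728 := by
    have h := congrArg φ₁ hr1
    rw [map_mul, map_ofNat, map_one] at h
    linear_combination h / 1728
  have hΔq : (W.Δ : ℚ) ≠ 0 := by exact_mod_cast hΔ0
  have hc2 : φ₁ cL = c := by
    have h := congrArg φ₁ hc1
    rw [map_mul, hφ₁, hφ₁] at h
    apply mul_right_cancel₀ hΔq
    rw [h, hc]
    push_cast
    ring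
  rw [hr2, hc2] at h1
  refine ⟨A', B ^ n, ?_, ?_⟩
  · intro h
    exact hBp (hpZ.dvd_of_dvd_pow h)
  · push_cast
    rw [h1, hA']
    push_cast
    ring

/-- The coefficients of `E₄ / (j - c)` in terms of `Fc`. -/
theorem coeff_quot (c : ℚ) (n : ℕ) :
    (((e4R ℚ : PowerSeries ℚ) : LaurentSeries ℚ) / (((e4R ℚ : PowerSeries ℚ) : LaurentSeries ℚ) ^ 3 /
      ((((e4R ℚ : PowerSeries ℚ) : LaurentSeries ℚ) ^ 3 - ((e6R ℚ : PowerSeries ℚ) : LaurentSeries ℚ) ^ 2) / 1728) -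
        HahnSeries.C c)).coeff (n : ℤ) = PowerSeries.coeff n (Fc (1 / 1728 : ℚ) c) := by
  have hr : (1728 : ℚ) * (1 / 1728) = 1 := by norm_num
  have h := Fc_J (1 / 1728 : ℚ) hr c
  obtain ⟨j, hj1, hj2⟩ := exJ (1 / 1728 : ℚ) hr
  have hJ : (ramL (1 / 1728 : ℚ) hr).J = ((e4R ℚ : PowerSeries ℚ) : LaurentSeries ℚ) ^ 3 /
      ((((e4R ℚ : PowerSeries ℚ) : LaurentSeries ℚ) ^ 3 - ((e6R ℚ : PowerSeries ℚ) : LaurentSeries ℚ) ^ 2) / 1728) := by
    have h1 := (ramL (1 / 1728 : ℚ) hr).hD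
    have h2 := (ramL (1 / 1728 : ℚ) hr).hDi
    have hb : (ramL (1 / 1728 : ℚ) hr).b = ((e4R ℚ : PowerSeries ℚ) : LaurentSeries ℚ) := rfl
    have hcc : (ramL (1 / 1728 : ℚ) hr).c = ((e6R ℚ : PowerSeries ℚ) : LaurentSeries ℚ) := rfl
    rw [← hb, ← hcc, ← h1]
    have h3 : (1728 : LaurentSeries ℚ) ≠ 0 := by
      have h5 := (ramL (1 / 1728 : ℚ) hr).hr
      intro h6
      rw [h6, zero_mul] at h5
      exact zero_ne_one h5
    rw [mul_div_cancel_left₀ _ h3]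
    have h4 : (ramL (1 / 1728 : ℚ) hr).D ≠ 0 := by
      intro h6
      rw [h6, zero_mul] at h2
      exact zero_ne_one h2
    rw [eq_div_iff h4]
    unfold Ram.J
    linear_combination (ramL (1 / 1728 : ℚ) hr).b ^ 3 * h2
  rw [← hJ]
  have hne : (ramL (1 / 1728 : ℚ) hr).J - HahnSeries.C c ≠ 0 := by
    intro h0
    have h1 : ((ramL (1 / 1728 : ℚ) hr).J - HahnSeries.C c).coeff (-1) = (0 : LaurentSeries ℚ).coeff (-1) := by rw [h0]
    rw [HahnSeries.coeff_sub, hj2, qio_self, hj1, HahnSeries.C_apply, HahnSeries.coeff_single_of_ne (by norm_num),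
      HahnSeries.coeff_zero, sub_zero] at h1
    exact one_ne_zero h1
  have h5 : ((e4R ℚ : PowerSeries ℚ) : LaurentSeries ℚ) / ((ramL (1 / 1728 : ℚ) hr).J - HahnSeries.C c) =
      io (Fc (1 / 1728 : ℚ) c) := by
    rw [div_eq_iff hne, h]
    rfl
  rw [h5, io_coeff]

end Pool.Agent.R498.EJ
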