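import Pool.Agent.R498.EJ.EJ1

set_option autoImplicit false

/-!
# The derivation `q d/dq` of Laurent series, the functions `j` and `E₄E₆/Δ`
-/

namespace Pool.Agent.R498.EJ

open HahnSeries

variable {R : Type*} [CommRing R]

/-- `q d/dq` on Laurent series, underlying function -/
def thL (f : LaurentSeries R) : LaurentSeries R where
  coeff n := (n : R) * f.coeff n
  isPWO_support' := f.isPWO_support.mono (by
    intro n hn
    rw [Function.mem_support] at hn
    rw [HahnSeries.mem_support]
    intro h
    exact hn (by rw [h, mul_zero]))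

theorem thL_coeff (f : LaurentSeries R) (n : ℤ) : (thL f).coeff n = (n : R) * f.coeff n := rfl

theorem thL_leib (f g : LaurentSeries R) : thL (f * g) = f * thL g + g * thL f := by
  ext n
  rw [thL_coeff, HahnSeries.coeff_add, mul_comm g, HahnSeries.coeff_mul,
    HahnSeries.coeff_mul_right' (s := g.support) g.isPWO_support (by
      intro m hm
      rw [HahnSeries.mem_support] at hm ⊢
      intro h
      exact hm (by rw [thL_coeff, h, mul_zero])),
    HahnSeries.coeff_mul_left' (s := f.support) f.isPWO_support (by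
      intro m hm
      rw [HahnSeries.mem_support] at hm ⊢
      intro h
      exact hm (by rw [thL_coeff, h, mul_zero])), Finset.mul_sum, ← Finset.sum_add_distrib]
  apply Finset.sum_congr rfl
  intro ij hij
  rw [Finset.mem_antidiagonal] at hij
  rw [thL_coeff, thL_coeff, ← hij.2.2]
  push_cast
  ring

/-- `q d/dq` on Laurent series -/
def TH : LaurentSeries R →+ LaurentSeries R where
  toFun := thL
  map_zero' := by
    ext n
    rw [thL_coeff, HahnSeries.coeff_zero, mul_zero]
  map_add' := by
    intro f g
    ext n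
    simp only [thL_coeff, HahnSeries.coeff_add]
    ring

theorem TH_coeff (f : LaurentSeries R) (n : ℤ) : (TH f).coeff n = (n : R) * f.coeff n := rfl

theorem TH_mul (f g : LaurentSeries R) : TH (f * g) = f * TH g + g * TH f := thL_leib f g

theorem TH_C (r : R) : TH (HahnSeries.C r : LaurentSeries R) = 0 := by
  ext n
  rw [TH_coeff, HahnSeries.C_apply, HahnSeries.coeff_zero, HahnSeries.coeff_single]
  split_ifs with h
  · rw [h]
    simp
  · simp

theorem TH_nat (n : ℕ) : TH ((n : LaurentSeries R)) = 0 := by
  have h := TH_C (R := R) (n : R)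
  rwa [map_natCast] at h

theorem TH_ofNat (n : ℕ) [n.AtLeastTwo] : TH (OfNat.ofNat n : LaurentSeries R) = 0 := TH_nat n

theorem TH_one : TH (1 : LaurentSeries R) = 0 := by
  have h := TH_nat (R := R) 1
  rwa [Nat.cast_one] at h

theorem TH_pow (f : LaurentSeries R) (n : ℕ) : TH (f ^ (n + 1)) = ((n + 1 : ℕ) : LaurentSeries R) * f ^ n * TH f := by
  induction n with
  | zero => simp
  | succ n ih =>
    rw [pow_succ, TH_mul, ih]
    push_cast
    ring

/-- evaluation of polynomials at a Laurent series -/
noncomputable def ev (J : LaurentSeries R) : Polynomial R →+* LaurentSeries R :=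
  Polynomial.eval₂RingHom HahnSeries.C J

theorem ev_C (J : LaurentSeries R) (r : R) : ev J (Polynomial.C r) = HahnSeries.C r := by
  simp [ev]

theorem ev_X (J : LaurentSeries R) : ev J Polynomial.X = J := by
  simp [ev]

theorem TH_ev (J : LaurentSeries R) (P : Polynomial R) : TH (ev J P) = ev J (Polynomial.derivative P) * TH J := by
  induction P using Polynomial.induction_on' with
  | add P Q hP hQ => rw [map_add, map_add, hP, hQ, Polynomial.derivative_add, map_add, add_mul]
  | monomial n a =>
    have h1 : ∀ (b : R) (m : ℕ), ev J (Polynomial.C b * Polynomial.X ^ m) = HahnSeries.C b * J ^ m := by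
      intro b m
      rw [map_mul, map_pow, ev_C, ev_X]
    rw [← Polynomial.C_mul_X_pow_eq_monomial, Polynomial.derivative_C_mul_X_pow, h1, h1, TH_mul, TH_C]
    rcases n with _ | n
    · simp [TH_one]
    · rw [TH_pow, Nat.add_sub_cancel, map_mul, map_natCast]
      push_cast
      ring

/-- power series as Laurent series -/
noncomputable def io : PowerSeries R →+* LaurentSeries R := HahnSeries.ofPowerSeries ℤ R

theorem io_coeff (f : PowerSeries R) (n : ℕ) : (io f).coeff (n : ℤ) = PowerSeries.coeff n f :=
  HahnSeries.ofPowerSeries_apply_coeff f n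

theorem io_coeff_neg (f : PowerSeries R) (n : ℤ) (hn : n < 0) : (io f).coeff n = 0 := by
  unfold io
  rw [HahnSeries.ofPowerSeries_apply]
  apply HahnSeries.embDomain_of_notMem_range
  simp only [Set.mem_range, not_exists]
  intro m hm
  have : ((m : ℕ) : ℤ) = n := hm
  omega

theorem TH_io (f : PowerSeries R) : TH (io f) = io (th f) := by
  ext n
  rw [TH_coeff]
  rcases lt_or_ge n 0 with h | h
  · rw [io_coeff_neg _ _ h, io_coeff_neg _ _ h, mul_zero]
  · obtain ⟨m, rfl⟩ := Int.eq_ofNat_of_zero_le h
    rw [io_coeff, io_coeff, th, PowerSeries.coeff_mk]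
    push_cast
    ring

/-- `q ^ n` -/
noncomputable def qp (n : ℤ) : LaurentSeries R := HahnSeries.single n 1

theorem qp_add (m n : ℤ) : (qp (m + n) : LaurentSeries R) = qp m * qp n := by
  unfold qp
  rw [HahnSeries.single_mul_single, mul_one]

theorem qp_zero : (qp 0 : LaurentSeries R) = 1 := rfl

theorem qp_pow (m : ℤ) (k : ℕ) : (qp m : LaurentSeries R) ^ k = qp (k * m) := by
  unfold qp
  rw [HahnSeries.single_pow, one_pow, nsmul_eq_mul]

theorem qp_one : (qp 1 : LaurentSeries R) = io PowerSeries.X := (HahnSeries.ofPowerSeries_X).symm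

theorem qp_coeff (m n : ℤ) (f : LaurentSeries R) : (qp m * f).coeff n = f.coeff (n - m) := by
  unfold qp
  have h := HahnSeries.coeff_single_mul_add (r := (1 : R)) (x := f) (a := n - m) (b := m)
  rw [sub_add_cancel, one_mul] at h
  exact h

variable (R) in
/-- `E₂` over `R` -/
noncomputable def e2R : PowerSeries R := PowerSeries.map (Int.castRingHom R) e2
variable (R) in
/-- `E₄` over `R` -/
noncomputable def e4R : PowerSeries R := PowerSeries.map (Int.castRingHom R) e4
variable (R) in
/-- `E₆` over `R` -/
noncomputable def e6R : PowerSeries R := PowerSeries.map (Int.castRingHom R) e6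

theorem ram2R : 12 * th (e2R R) = e2R R * e2R R - e4R R := by
  have h := congrArg (PowerSeries.map (Int.castRingHom R)) ram2Z
  rw [map_mul, map_sub, map_mul, map_ofNat, ← th_map] at h
  exact h

theorem ram4R : 3 * th (e4R R) = e2R R * e4R R - e6R R := by
  have h := congrArg (PowerSeries.map (Int.castRingHom R)) ram4Z
  rw [map_mul, map_sub, map_mul, map_ofNat, ← th_map] at h
  exact h

theorem ram6R : 2 * th (e6R R) = e2R R * e6R R - e4R R * e4R R := by
  have h := congrArg (PowerSeries.map (Int.castRingHom R)) ram6Z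
  rw [map_mul, map_sub, map_mul, map_mul, map_ofNat, ← th_map] at h
  exact h

/-- `Δ = r (E₄³ - E₆²)`, `r = 1/1728` -/
noncomputable def dl (r : R) : PowerSeries R := PowerSeries.C r * (e4R R ^ 3 - e6R R ^ 2)

theorem e4_0 : PowerSeries.constantCoeff (e4R R) = 1 := by
  rw [e4R, ← PowerSeries.coeff_zero_eq_constantCoeff_apply, PowerSeries.coeff_map, e4, PowerSeries.coeff_mk]
  simp

theorem e6_0 : PowerSeries.constantCoeff (e6R R) = 1 := by
  rw [e6R, ← PowerSeries.coeff_zero_eq_constantCoeff_apply, PowerSeries.coeff_map, e6, PowerSeries.coeff_mk]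
  simp

theorem e4_1 : PowerSeries.coeff 1 (e4R R) = 240 := by
  rw [e4R, PowerSeries.coeff_map, e4, PowerSeries.coeff_mk]
  simp

theorem e6_1 : PowerSeries.coeff 1 (e6R R) = -504 := by
  rw [e6R, PowerSeries.coeff_map, e6, PowerSeries.coeff_mk]
  simp

theorem coeff_one_mul' (f g : PowerSeries R) : PowerSeries.coeff 1 (f * g) =
    PowerSeries.constantCoeff f * PowerSeries.coeff 1 g + PowerSeries.coeff 1 f * PowerSeries.constantCoeff g := by
  rw [PowerSeries.coeff_mul, Finset.Nat.antidiagonal_succ]
  simp

theorem dl_0 (r : R) : PowerSeries.constantCoeff (dl r) = 0 := by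
  simp [dl, e4_0, e6_0]

theorem dl_1 (r : R) (hr : 1728 * r = 1) : PowerSeries.coeff 1 (dl r) = 1 := by
  rw [dl, PowerSeries.coeff_C_mul, map_sub, pow_succ, pow_two, pow_two, coeff_one_mul', coeff_one_mul', coeff_one_mul',
    map_mul]
  simp only [e4_0, e6_0, e4_1, e6_1]
  linear_combination hr

theorem dl_eq (r : R) (hr : 1728 * r = 1) : ∃ v : PowerSeries R, PowerSeries.constantCoeff v = 1 ∧
    dl r = PowerSeries.X * v := by
  have h := PowerSeries.X_dvd_iff.2 (dl_0 r)
  obtain ⟨v, hv⟩ := h
  refine ⟨v, ?_, hv⟩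
  have h1 := dl_1 r hr
  rw [hv, coeff_one_mul'] at h1
  simpa using h1

end Pool.Agent.R498.EJ
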