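import Pool.Agent.R498.EJ.EJ2

set_option autoImplicit false

/-!
# Differential algebra of `E₂, E₄, E₆`: the third derivative and the discriminant of `P(j) E₄E₆/Δ`
-/

namespace Pool.Agent.R498.EJ

/-- derivation data satisfying Ramanujan's identities -/
structure Ram (L : Type*) [CommRing L] where
  t : L →+ L
  a : L
  b : L
  c : L
  D : L
  Di : L
  r : L
  hm : ∀ f g, t (f * g) = f * t g + g * t f
  ha : 12 * t a = a * a - b
  hb : 3 * t b = a * b - c
  hc : 2 * t c = a * c - b * b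
  hr : 1728 * r = 1
  hD : 1728 * D = b ^ 3 - c ^ 2
  hDi : D * Di = 1

namespace Ram

variable {L : Type*} [CommRing L] (X : Ram L)

/-- `j` -/
def J : L := X.b ^ 3 * X.Di
/-- `j - 1728` -/
def K : L := X.c ^ 2 * X.Di
/-- `E₄ E₆ / Δ` -/
def U : L := X.b * X.c * X.Di

theorem hJK : X.J - X.K = 1728 := by
  unfold J K
  linear_combination -X.Di * X.hD + 1728 * X.hDi

theorem hbUU : X.b * X.U * X.U = X.J * X.K := by
  unfold U J K
  ring

theorem hcU : X.c * X.U = X.b * X.K := by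
  unfold U K
  ring

theorem t1 : X.t 1 = 0 := by
  have h := X.hm 1 1
  rw [one_mul, one_mul] at h
  linear_combination -h

theorem tn (n : ℕ) : X.t (n : L) = 0 := by
  induction n with
  | zero => simp
  | succ n ih => rw [Nat.cast_succ, map_add, ih, X.t1, add_zero]

theorem tO (n : ℕ) [n.AtLeastTwo] : X.t (OfNat.ofNat n : L) = 0 := X.tn n

include X in
theorem canc {x y : L} (h : 1728 * x = 1728 * y) : x = y := by
  have h1 : X.r * (1728 * x) = X.r * (1728 * y) := by rw [h]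
  linear_combination (-x) * X.hr + y * X.hr + h1

include X in
theorem canc432 {x y : L} (h : 432 * x = 432 * y) : x = y := by
  apply X.canc
  linear_combination 4 * h

include X in
theorem canc6 {x y : L} (h : 6 * x = 6 * y) : x = y := by
  apply X.canc
  linear_combination 288 * h

theorem tD : X.t X.D = X.a * X.D := by
  apply X.canc
  have h := congrArg X.t X.hD
  have h3 : X.b ^ 3 = X.b * (X.b * X.b) := by ring
  have h2 : X.c ^ 2 = X.c * X.c := by ring
  rw [h3, h2, map_sub, X.hm, X.hm, X.hm, X.hm, X.tO] at h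
  linear_combination h + X.b ^ 2 * X.hb - X.c * X.hc - X.a * X.hD

theorem tDi : X.t X.Di = -X.a * X.Di := by
  have h := congrArg X.t X.hDi
  rw [X.hm, X.t1, X.tD] at h
  linear_combination X.Di * h - (X.t X.Di + X.a * X.Di) * X.hDi

theorem tJ : X.t X.J = -(X.b * X.U) := by
  unfold J U
  have h3 : X.b ^ 3 * X.Di = X.b * (X.b * (X.b * X.Di)) := by ring
  rw [h3, X.hm, X.hm, X.hm, X.tDi]
  linear_combination X.b ^ 2 * X.Di * X.hb

theorem tK : X.t X.K = -(X.b * X.U) := by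
  have h := congrArg X.t X.hJK
  rw [map_sub, X.tJ, X.tO] at h
  linear_combination -h

theorem tU : 6 * X.t X.U = -X.a * X.U - 5 * X.J + 3456 := by
  have h3 : X.t X.U = X.t (X.b * (X.c * X.Di)) := by
    unfold U
    congr 1
    ring
  rw [h3, X.hm, X.hm, X.tDi]
  have h4 := X.hJK
  unfold U
  unfold J K at *
  linear_combination 2 * X.c * X.Di * X.hb + 3 * X.b * X.Di * X.hc + 2 * h4

theorem tB : 6 * X.t (X.b * X.U) = X.b * (X.a * X.U - 7 * X.J + 6912) := by
  rw [X.hm]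
  linear_combination X.b * X.tU + 2 * X.U * X.hb - 2 * X.hcU + 2 * X.b * X.hJK

theorem tM : X.t (X.J * X.K) = -(X.b * X.U) * (X.J + X.K) := by
  rw [X.hm, X.tJ, X.tK]
  ring

variable (y y1 y2 y3 : L) (hy : X.t y = y1 * X.t X.J) (hy1 : X.t y1 = y2 * X.t X.J) (hy2 : X.t y2 = y3 * X.t X.J)

include hy in
theorem g1 : 6 * X.t (y * X.U) = -(6 * (y1 * (X.J * X.K))) - y * (X.a * X.U + 5 * X.J - 3456) := by
  rw [X.hm, hy, X.tJ]
  linear_combination y * X.tU - 6 * y1 * X.hbUU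

include hy hy1 in
theorem g2 : 72 * X.t (X.t (y * X.U)) = 72 * (y2 * ((X.b * X.U) * (X.J * X.K))) +
    12 * (y1 * (X.a * (X.J * X.K) + (X.b * X.U) * (17 * X.J - 13824))) +
    y * (X.a * (X.a * X.U) + 61 * (X.b * X.U) + 2 * (X.a * (5 * X.J - 3456))) := by
  have hg := X.g1 y y1 hy
  generalize X.t (y * X.U) = T1 at hg ⊢
  have e := congrArg X.t hg
  simp only [map_sub, map_neg, map_add, X.hm _ _, X.tO] at e
  have hM := X.tM
  have hJ := X.tJ
  have hK := X.tK
  have hU := X.tU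
  rw [X.hm] at hM
  rw [hy1, hJ, hK] at e
  rw [hy, hJ] at e
  linear_combination 12 * e - y * X.U * X.ha - 2 * y * X.a * hU + 12 * y1 * X.a * X.hbUU - 72 * y1 * X.b * X.U * X.hJK

include hy hy1 hy2 in
theorem g3 : X.t (X.t (X.t (y * X.U))) = -(X.b * (X.J ^ 2 * X.K ^ 2 * y3 + 3 * (X.J * X.K * (X.J + X.K)) * y2 +
    (7 * X.J ^ 2 - 12336 * X.J + 2654208) * y1 + (X.J - 984) * y)) := by
  have hg := X.g2 y y1 y2 hy hy1
  generalize X.t (X.t (y * X.U)) = T2 at hg ⊢
  have e := congrArg X.t hg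
  have hJ := X.tJ
  have hB := X.tB
  have hM := X.tM
  have hU := X.tU
  have ha := X.ha
  have hUU := X.hbUU
  have hJK := X.hJK
  generalize hBe : X.b * X.U = B at e hJ hB hM hU
  generalize hMe : X.J * X.K = M at e hM
  simp only [map_sub, map_add, X.hm _ _, X.tO] at e
  rw [hy2, hy1, hy, hJ, hM] at e
  apply X.canc432
  subst hBe hMe
  linear_combination 6 * e + 72 * y2 * (X.J * X.K) * hB + 6 * y1 * (X.J * X.K) * ha +
    12 * y1 * (17 * X.J - 13824) * hB + y * X.a * X.U * ha + y * X.a ^ 2 * hU + 61 * y * hB +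
    y * (5 * X.J - 3456) * ha +
    (X.b * (-432 * (X.J * X.K) * y3 - 432 * y2 * (X.J + X.K) - 72 * y2 * (17 * X.J - 13824) - 1590 * y1) -
      6 * y1 * X.a ^ 2) * hUU +
    (1596 * X.b * X.J * y1 + 72 * y1 * X.a * X.b * X.U - 864 * X.b * (X.J * X.K) * y2) * hJK

include hy hy1 in
theorem gD : 36 * (2 * (y * X.U) * X.t (X.t (y * X.U)) - X.t (y * X.U) ^ 2) =
    36 * (X.J ^ 2 * X.K ^ 2 * (2 * y * y2 - y1 ^ 2)) + 72 * (X.J * X.K * (X.J + X.K) * (y * y1)) +
    (61 * (X.J * X.K) - (5 * X.J - 3456) ^ 2) * y ^ 2 := by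
  have h1 := X.g1 y y1 hy
  have h2 := X.g2 y y1 y2 hy hy1
  have hUU := X.hbUU
  have hJK := X.hJK
  linear_combination y * X.U * h2 - (6 * X.t (y * X.U) - (6 * (y1 * (X.J * X.K))) - y * (X.a * X.U + 5 * X.J - 3456)) * h1 +
    (72 * y * y2 * (X.J * X.K) + 12 * y * y1 * (17 * X.J - 13824) + 61 * y ^ 2) * hUU + 72 * X.J * X.K * y * y1 * hJK

end Ram

end Pool.Agent.R498.EJ
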