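import Pool.Agent.R498.EJ.EJ3

set_option autoImplicit false

/-!
# Laurent series: triangularity, existence of Faber type polynomials, residues
-/

namespace Pool.Agent.R498.EJ

open Polynomial

variable {R : Type*} [CommRing R]

theorem qio_lt (m n : ℤ) (f : PowerSeries R) (h : n < m) : (qp m * io f).coeff n = 0 := by
  rw [qp_coeff, io_coeff_neg _ _ (by omega)]

theorem qio_add (m : ℤ) (k : ℕ) (f : PowerSeries R) : (qp m * io f).coeff (m + k) = PowerSeries.coeff k f := by
  rw [qp_coeff, add_sub_cancel_left, io_coeff]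

theorem qio_self (m : ℤ) (f : PowerSeries R) : (qp m * io f).coeff m = PowerSeries.constantCoeff f := by
  have h := qio_add m 0 f
  rw [Nat.cast_zero, add_zero] at h
  rw [h, PowerSeries.coeff_zero_eq_constantCoeff_apply]

theorem coeffC (r : R) (f : LaurentSeries R) (n : ℤ) : (HahnSeries.C r * f).coeff n = r * f.coeff n := by
  rw [HahnSeries.C_apply, HahnSeries.coeff_single_zero_mul]

/-- the data over `R` -/
noncomputable def ramL (r : R) (hr : 1728 * r = 1) : Ram (LaurentSeries R) where
  t := TH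
  a := io (e2R R)
  b := io (e4R R)
  c := io (e6R R)
  D := io (dl r)
  Di := qp (-1) * io (PowerSeries.invOfUnit (Classical.choose (dl_eq r hr)) 1)
  r := HahnSeries.C r
  hm := TH_mul
  ha := by
    rw [TH_io]
    have h := congrArg io (ram2R (R := R))
    rw [map_mul, map_sub, map_mul, map_ofNat] at h
    exact h
  hb := by
    rw [TH_io]
    have h := congrArg io (ram4R (R := R))
    rw [map_mul, map_sub, map_mul, map_ofNat] at h
    exact h
  hc := by
    rw [TH_io]
    have h := congrArg io (ram6R (R := R))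
    rw [map_mul, map_sub, map_mul, map_mul, map_ofNat] at h
    exact h
  hr := by
    have h := congrArg (HahnSeries.C (Γ := ℤ)) hr
    rw [map_mul, map_one, map_ofNat] at h
    exact h
  hD := by
    have h : 1728 * dl r = e4R R ^ 3 - e6R R ^ 2 := by
      have h1 := congrArg (PowerSeries.C (R := R)) hr
      rw [map_mul, map_one, map_ofNat] at h1
      rw [dl]
      linear_combination (e4R R ^ 3 - e6R R ^ 2) * h1
    have h2 := congrArg io h
    rw [map_mul, map_sub, map_pow, map_pow, map_ofNat] at h2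
    exact h2
  hDi := by
    obtain ⟨h1, h2⟩ := Classical.choose_spec (dl_eq r hr)
    have h3 := PowerSeries.mul_invOfUnit (Classical.choose (dl_eq r hr)) 1 (by rw [h1]; rfl)
    generalize Classical.choose (dl_eq r hr) = v at h1 h2 h3
    have h4 := congrArg io h3
    rw [map_mul, map_one] at h4
    have h5 : (qp 1 * qp (-1) : LaurentSeries R) = 1 := by
      rw [← qp_add]
      rfl
    rw [h2, map_mul, ← qp_one]
    linear_combination io v * io (PowerSeries.invOfUnit v 1) * h5 + h4

section

variable (r : R) (hr : 1728 * r = 1)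

theorem exJ : ∃ f : PowerSeries R, PowerSeries.constantCoeff f = 1 ∧ (ramL r hr).J = qp (-1) * io f := by
  obtain ⟨h1, h2⟩ := Classical.choose_spec (dl_eq r hr)
  refine ⟨e4R R ^ 3 * PowerSeries.invOfUnit (Classical.choose (dl_eq r hr)) 1, ?_, ?_⟩
  · rw [map_mul, map_pow, e4_0, PowerSeries.constantCoeff_invOfUnit]
    simp
  · rw [map_mul, map_pow]
    unfold Ram.J
    show io (e4R R) ^ 3 * (qp (-1) * io (PowerSeries.invOfUnit (Classical.choose (dl_eq r hr)) 1)) = _
    ring

theorem exU : ∃ f : PowerSeries R, PowerSeries.constantCoeff f = 1 ∧ (ramL r hr).U = qp (-1) * io f := by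
  obtain ⟨h1, h2⟩ := Classical.choose_spec (dl_eq r hr)
  refine ⟨e4R R * e6R R * PowerSeries.invOfUnit (Classical.choose (dl_eq r hr)) 1, ?_, ?_⟩
  · rw [map_mul, map_mul, e4_0, e6_0, PowerSeries.constantCoeff_invOfUnit]
    simp
  · rw [map_mul, map_mul]
    unfold Ram.U
    show io (e4R R) * io (e6R R) * (qp (-1) * io (PowerSeries.invOfUnit (Classical.choose (dl_eq r hr)) 1)) = _
    ring

theorem ev_sum (J : LaurentSeries R) (P : R[X]) (n : ℕ) (hn : P.natDegree ≤ n) :
    ev J P = ∑ i ∈ Finset.range (n + 1), HahnSeries.C (P.coeff i) * J ^ i := by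
  conv_lhs => rw [P.as_sum_range' (n + 1) (Nat.lt_succ_of_le hn)]
  rw [map_sum]
  apply Finset.sum_congr rfl
  intro i _
  rw [← C_mul_X_pow_eq_monomial, map_mul, map_pow, ev_C, ev_X]

theorem coeff_ev (J W : LaurentSeries R) (j w : PowerSeries R) (s : ℤ) (hj : PowerSeries.constantCoeff j = 1)
    (hw : PowerSeries.constantCoeff w = 1) (hJ : J = qp (-1) * io j) (hW : W = qp (-s) * io w) (P : R[X]) (n : ℕ)
    (hn : P.natDegree ≤ n) :
    (ev J P * W).coeff (-(n + s)) = P.coeff n ∧ ∀ m : ℤ, m < -(n + s) → (ev J P * W).coeff m = 0 := by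
  have hterm : ∀ i : ℕ, J ^ i * W = qp (-(i + s)) * io (j ^ i * w) := by
    intro i
    rw [hJ, hW, mul_pow, qp_pow, map_mul, map_pow]
    have h1 : (-((i : ℤ) + s)) = i * -1 + -s := by ring
    rw [h1, qp_add]
    ring
  have hc : ∀ m : ℤ, (ev J P * W).coeff m = ∑ i ∈ Finset.range (n + 1), P.coeff i * (qp (-(i + s)) * io (j ^ i * w)).coeff m := by
    intro m
    rw [ev_sum J P n hn, Finset.sum_mul, HahnSeries.coeff_sum]
    apply Finset.sum_congr rfl
    intro i _
    rw [mul_assoc, coeffC, hterm]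
  constructor
  · rw [hc, Finset.sum_range_succ, Finset.sum_eq_zero, zero_add, qio_self]
    · simp [hj, hw]
    · intro i hi
      rw [Finset.mem_range] at hi
      rw [qio_lt _ _ _ (by omega), mul_zero]
  · intro m hm
    rw [hc]
    apply Finset.sum_eq_zero
    intro i hi
    rw [Finset.mem_range] at hi
    rw [qio_lt _ _ _ (by omega), mul_zero]

theorem eq_zero_of_coeff (J W : LaurentSeries R) (j w : PowerSeries R) (s : ℤ) (hj : PowerSeries.constantCoeff j = 1)
    (hw : PowerSeries.constantCoeff w = 1) (hJ : J = qp (-1) * io j) (hW : W = qp (-s) * io w) (P : R[X])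
    (h : ∀ n : ℕ, (ev J P * W).coeff (-(n + s)) = 0) : P = 0 := by
  by_contra hP
  have h1 := (coeff_ev J W j w s hj hw hJ hW P P.natDegree le_rfl).1
  rw [h, coeff_natDegree] at h1
  exact hP (leadingCoeff_eq_zero.1 h1.symm)

theorem exists_poly (J W : LaurentSeries R) (j w : PowerSeries R) (s : ℤ) (hj : PowerSeries.constantCoeff j = 1)
    (hw : PowerSeries.constantCoeff w = 1) (hJ : J = qp (-1) * io j) (hW : W = qp (-s) * io w) (n : ℕ) (t : ℕ → R) :
    ∃ P : R[X], P.natDegree ≤ n ∧ ∀ k : ℕ, k ≤ n → (ev J P * W).coeff (-(k + s)) = t k := by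
  induction n generalizing t with
  | zero =>
    refine ⟨C (t 0), by simp, ?_⟩
    intro k hk
    have hk0 : k = 0 := by omega
    subst hk0
    have h1 := (coeff_ev J W j w s hj hw hJ hW (C (t 0)) 0 (by simp)).1
    rw [h1]
    simp
  | succ n ih =>
    obtain ⟨P, hP1, hP2⟩ := ih (fun k => t k - (ev J (C (t (n + 1)) * X ^ (n + 1)) * W).coeff (-(k + s)))
    refine ⟨C (t (n + 1)) * X ^ (n + 1) + P, ?_, ?_⟩
    · exact (natDegree_add_le _ _).trans (max_le (natDegree_C_mul_X_pow_le _ _) (hP1.trans (Nat.le_succ n)))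
    · intro k hk
      rw [map_add, add_mul, HahnSeries.coeff_add]
      rcases Nat.lt_or_ge n k with h | h
      · have hk1 : k = n + 1 := by omega
        subst hk1
        have h1 := (coeff_ev J W j w s hj hw hJ hW (C (t (n + 1)) * X ^ (n + 1)) (n + 1)
          (natDegree_C_mul_X_pow_le _ _)).1
        have h2 := (coeff_ev J W j w s hj hw hJ hW P n hP1).2 (-((n + 1 : ℕ) + s)) (by push_cast; omega)
        rw [h1, h2]
        simp
      · rw [hP2 k h]
        ring

end

end Pool.Agent.R498.EJ
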