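import Pool.Agent.R498.EJ.EJ4

set_option autoImplicit false

/-!
# The coefficient of `q^p` of `E₄/(j - c)` as a polynomial in `c`
-/

namespace Pool.Agent.R498.EJ

open Polynomial

variable {R : Type*} [CommRing R] (r : R) (hr : 1728 * r = 1)

/-- `E₄ / (j - c) = E₄ Δ / (E₄³ - c Δ)` -/
noncomputable def Fc (c : R) : PowerSeries R :=
  e4R R * dl r * PowerSeries.invOfUnit (e4R R ^ 3 - PowerSeries.C c * dl r) 1

theorem Fc_spec (c : R) : Fc r c * (e4R R ^ 3 - PowerSeries.C c * dl r) = e4R R * dl r := by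
  have h := PowerSeries.mul_invOfUnit (e4R R ^ 3 - PowerSeries.C c * dl r) 1 (by
    rw [map_sub, map_mul, map_pow, e4_0, dl_0]
    simp)
  unfold Fc
  linear_combination (e4R R * dl r) * h

include hr in
theorem Fc_X (c : R) : ∃ f : PowerSeries R, PowerSeries.constantCoeff f = 1 ∧ Fc r c = PowerSeries.X * f := by
  obtain ⟨v, hv1, hv2⟩ := dl_eq r hr
  refine ⟨e4R R * v * PowerSeries.invOfUnit (e4R R ^ 3 - PowerSeries.C c * dl r) 1, ?_, ?_⟩
  · rw [map_mul, map_mul, e4_0, hv1, PowerSeries.constantCoeff_invOfUnit]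
    simp
  · unfold Fc
    generalize PowerSeries.invOfUnit (e4R R ^ 3 - PowerSeries.C c * dl r) 1 = I
    rw [hv2]
    ring

theorem Fc_J (c : R) : io (Fc r c) * ((ramL r hr).J - HahnSeries.C c) = io (e4R R) := by
  have h := congrArg io (Fc_spec r c)
  rw [map_mul, map_sub, map_mul, map_pow, map_mul] at h
  have hC : io (PowerSeries.C c) = (HahnSeries.C c : LaurentSeries R) := HahnSeries.ofPowerSeries_C c
  rw [hC] at h
  have hD : io (dl r) * (ramL r hr).Di = 1 := (ramL r hr).hDi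
  unfold Ram.J
  show io (Fc r c) * (io (e4R R) ^ 3 * (ramL r hr).Di - HahnSeries.C c) = io (e4R R)
  linear_combination (ramL r hr).Di * h + (io (e4R R) + io (Fc r c) * HahnSeries.C c) * hD

/-- The Faber type polynomial of degree `m`. -/
theorem faber (m : ℕ) : ∃ G : R[X], G.natDegree ≤ m ∧ G.coeff m = 1 ∧
    ∀ k : ℕ, (ev (ramL r hr).J G * (ramL r hr).U).coeff (-(k + 1)) = if k = m then 1 else 0 := by
  obtain ⟨j, hj1, hj2⟩ := exJ r hr
  obtain ⟨u, hu1, hu2⟩ := exU r hr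
  obtain ⟨G, hG1, hG2⟩ := exists_poly _ _ j u 1 hj1 hu1 hj2 hu2 m (fun k => if k = m then 1 else 0)
  have h1 := coeff_ev _ _ j u 1 hj1 hu1 hj2 hu2 G m hG1
  refine ⟨G, hG1, ?_, ?_⟩
  · rw [← h1.1, hG2 m le_rfl]
    simp
  · intro k
    rcases Nat.lt_or_ge m k with h | h
    · rw [h1.2 _ (by omega), if_neg (by omega)]
    · exact hG2 k h

theorem ct_JTHJ (J : LaurentSeries R) (i : ℕ) (hi : IsUnit ((i + 1 : ℕ) : R)) : (J ^ i * TH J).coeff 0 = 0 := by
  have h := TH_pow J i
  have h1 := TH_coeff (J ^ (i + 1)) 0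
  rw [h, Int.cast_zero, zero_mul, mul_assoc] at h1
  have h2 : (((i + 1 : ℕ) : LaurentSeries R)) = HahnSeries.C ((i + 1 : ℕ) : R) := (map_natCast _ _).symm
  rw [h2, coeffC] at h1
  exact (hi.mul_right_eq_zero).1 h1

theorem coeff_eq_eval (m : ℕ) (hm : 0 < m) (hu : ∀ i : ℕ, i < m → IsUnit ((i + 1 : ℕ) : R)) (G : R[X]) (hG : G.natDegree ≤ m)
    (hk : ∀ k : ℕ, (ev (ramL r hr).J G * (ramL r hr).U).coeff (-(k + 1)) = if k = m then 1 else 0) (c : R) :
    PowerSeries.coeff (m + 1) (Fc r c) = G.eval c := by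
  obtain ⟨u, hu1, hu2⟩ := exU r hr
  obtain ⟨f, hf1, hf2⟩ := Fc_X r hr c
  have hJ := (ramL r hr).tJ
  have hF := Fc_J r hr c
  obtain ⟨J, hJe⟩ : ∃ J, J = (ramL r hr).J := ⟨_, rfl⟩
  obtain ⟨U, hUe⟩ : ∃ U, U = (ramL r hr).U := ⟨_, rfl⟩
  have hJ2 : TH J = -(io (e4R R) * U) := by
    rw [hJe, hUe]
    exact hJ
  rw [← hJe] at hF hk
  rw [← hUe] at hu2 hk
  -- decomposition of `G`
  obtain ⟨S, hSe⟩ : ∃ S, S = G /ₘ (X - C c) := ⟨_, rfl⟩
  have hdec : (X - C c) * S + C (G.eval c) = G := by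
    have h := modByMonic_add_div G (X - C c)
    rw [modByMonic_X_sub_C_eq_C_eval, ← hSe] at h
    rw [add_comm]
    exact h
  have hSd : S.natDegree ≤ m - 1 := by
    rw [hSe, natDegree_divByMonic G (monic_X_sub_C c)]
    have := natDegree_X_sub_C_le c
    by_cases hnt : Nontrivial R
    · rw [natDegree_X_sub_C]
      omega
    · have h1 : Subsingleton R := not_nontrivial_iff_subsingleton.1 hnt
      have h2 : G = 0 := Subsingleton.elim _ _
      rw [h2]
      simp
  have hprod : ev J G * U * io (Fc r c) = HahnSeries.C (G.eval c) * (U * io (Fc r c)) - ev J S * TH J := by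
    have h := congrArg (ev J) hdec
    rw [map_add, map_mul, map_sub, ev_C, ev_C, ev_X] at h
    rw [hJ2]
    linear_combination -(U * io (Fc r c)) * h + ev J S * U * hF
  have hS0 : (ev J S * TH J).coeff 0 = 0 := by
    rw [ev_sum J S (m - 1) hSd, Finset.sum_mul, HahnSeries.coeff_sum]
    apply Finset.sum_eq_zero
    intro i hi
    rw [Finset.mem_range] at hi
    rw [mul_assoc, coeffC, ct_JTHJ J i (hu i (by omega)), mul_zero]
  have hU1 : (U * io (Fc r c)).coeff 0 = 1 := by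
    have h1 : U * io (Fc r c) = qp 0 * io (u * f) := by
      rw [hf2, hu2, map_mul, map_mul, ← qp_one, show (0 : ℤ) = -1 + 1 by norm_num, qp_add]
      ring
    rw [h1, qio_self, map_mul, hu1, hf1, one_mul]
  have hlhs : (ev J G * U * io (Fc r c)).coeff 0 = PowerSeries.coeff (m + 1) (Fc r c) := by
    obtain ⟨g, hg⟩ : ∃ g, g = ev J G * U := ⟨_, rfl⟩
    rw [← hg]
    have hdec2 : g = qp (-(m + 1)) + io (PowerSeries.mk fun n => g.coeff (n : ℤ)) := by
      ext n
      rw [HahnSeries.coeff_add]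
      rcases lt_or_ge n 0 with h | h
      · obtain ⟨k, hk2⟩ : ∃ k : ℕ, n = -(k + 1) := ⟨(-n - 1).toNat, by omega⟩
        rw [hk2, io_coeff_neg _ _ (by omega), add_zero, hg, hk k]
        unfold qp
        rw [HahnSeries.coeff_single]
        by_cases hkm : k = m
        · rw [if_pos hkm, if_pos (by rw [hkm])]
        · rw [if_neg hkm, if_neg (by omega)]
      · obtain ⟨k, rfl⟩ := Int.eq_ofNat_of_zero_le h
        rw [io_coeff, PowerSeries.coeff_mk]
        unfold qp
        rw [HahnSeries.coeff_single, if_neg (by omega), zero_add]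
    rw [hdec2, add_mul, HahnSeries.coeff_add, ← map_mul]
    have h1 : (qp (-((m : ℤ) + 1)) * io (Fc r c)).coeff 0 = PowerSeries.coeff (m + 1) (Fc r c) := by
      have h2 := qio_add (-((m : ℤ) + 1)) (m + 1) (Fc r c)
      rw [← h2]
      congr 1
      push_cast
      ring
    rw [h1]
    have h3 : (io ((PowerSeries.mk fun n => g.coeff (n : ℤ)) * Fc r c)).coeff 0 = 0 := by
      have h4 := io_coeff ((PowerSeries.mk fun n => g.coeff (n : ℤ)) * Fc r c) 0
      rw [Nat.cast_zero] at h4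
      rw [h4, PowerSeries.coeff_zero_eq_constantCoeff_apply, map_mul, hf2, map_mul]
      simp
    rw [h3, add_zero]
  rw [← hlhs, hprod, HahnSeries.coeff_sub, coeffC, hU1, hS0, mul_one, sub_zero]

end Pool.Agent.R498.EJ
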