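import Pool.Agent.R498.EJ.EJ5

set_option autoImplicit false

/-!
# The discriminant identity modulo `p²`
-/

namespace Pool.Agent.R498.EJ

open Polynomial

variable {R : Type*} [CommRing R] (r : R) (hr : 1728 * r = 1)

/-- the discriminant polynomial of `G` -/
noncomputable def DP (G : R[X]) : R[X] :=
  36 * (X ^ 2 * (X - 1728) ^ 2 * (2 * G * derivative (derivative G) - derivative G ^ 2)) +
    72 * (X * (X - 1728) * (X + (X - 1728)) * (G * derivative G)) +
    (61 * (X * (X - 1728)) - (5 * X - 3456) ^ 2) * G ^ 2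

theorem ev_K : (ramL r hr).J - 1728 = (ramL r hr).K := by
  linear_combination (ramL r hr).hJK

theorem ev_DP (G : R[X]) : ev (ramL r hr).J (DP G) = 36 * (2 * (ev (ramL r hr).J G * (ramL r hr).U) *
    TH (TH (ev (ramL r hr).J G * (ramL r hr).U)) - TH (ev (ramL r hr).J G * (ramL r hr).U) ^ 2) := by
  have h := (ramL r hr).gD (ev (ramL r hr).J G) (ev (ramL r hr).J (derivative G))
    (ev (ramL r hr).J (derivative (derivative G))) (TH_ev _ _) (TH_ev _ _)
  unfold DP
  simp only [map_add, map_mul, map_pow, map_ofNat, map_sub, ev_X, ev_K]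
  exact h.symm

/-- the third derivative -/
theorem ev_third (G : R[X]) : TH (TH (TH (ev (ramL r hr).J G * (ramL r hr).U))) =
    ev (ramL r hr).J (-(X ^ 2 * (X - 1728) ^ 2 * derivative (derivative (derivative G)) +
      3 * (X * (X - 1728) * (X + (X - 1728))) * derivative (derivative G) +
      (7 * X ^ 2 - 12336 * X + 2654208) * derivative G + (X - 984) * G)) * (qp (-0) * io (e4R R)) := by
  have h := (ramL r hr).g3 (ev (ramL r hr).J G) (ev (ramL r hr).J (derivative G))
    (ev (ramL r hr).J (derivative (derivative G))) (ev (ramL r hr).J (derivative (derivative (derivative G))))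
    (TH_ev _ _) (TH_ev _ _) (TH_ev _ _)
  have hq : (qp (-0) : LaurentSeries R) = 1 := rfl
  rw [hq, one_mul]
  refine h.trans ?_
  have hb : (ramL r hr).b = io (e4R R) := rfl
  rw [hb, map_neg]
  simp only [map_add, map_mul, map_pow, map_ofNat, map_sub, ev_X, ev_K]
  ring

variable (p : ℕ) (hp : p.Prime) (hp2 : (p : R) ^ 2 = 0) (hun : ∀ m : ℤ, ¬ (p : ℤ) ∣ m → IsUnit (m : R))

include hp hp2 hun in
theorem DP_eq_zero (G : R[X]) (hG : G.natDegree ≤ p - 1)
    (hk : ∀ k : ℕ, (ev (ramL r hr).J G * (ramL r hr).U).coeff (-(k + 1)) = if k = p - 1 then 1 else 0) :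
    DP G = 0 := by
  obtain ⟨j, hj1, hj2⟩ := exJ r hr
  have hp1 := hp.one_lt
  have h3 := ev_third r hr G
  obtain ⟨Q, hQ⟩ : ∃ Q, Q = (-(X ^ 2 * (X - 1728) ^ 2 * derivative (derivative (derivative G)) +
      3 * (X * (X - 1728) * (X + (X - 1728))) * derivative (derivative G) +
      (7 * X ^ 2 - 12336 * X + 2654208) * derivative G + (X - 984) * G)) := ⟨_, rfl⟩
  rw [← hQ] at h3
  obtain ⟨g, hg⟩ : ∃ g, g = ev (ramL r hr).J G * (ramL r hr).U := ⟨_, rfl⟩
  rw [← hg] at h3 hk
  have hQ0 : Q = 0 := by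
    apply eq_zero_of_coeff (ramL r hr).J (qp (-0) * io (e4R R)) j (e4R R) 0 hj1 e4_0 hj2 rfl
    intro n
    rw [← h3, TH_coeff, TH_coeff, TH_coeff, add_zero]
    rcases n with _ | k
    · simp
    · have h4 := hk k
      push_cast
      push_cast at h4
      rw [h4]
      split_ifs with hkm
      · rw [hkm]
        have h5 : ((p - 1 : ℕ) : R) + 1 = p := by
          have : ((p - 1 : ℕ) : R) + 1 = ((p - 1 + 1 : ℕ) : R) := by push_cast; ring
          rw [this, Nat.sub_add_cancel hp1.le]
        linear_combination (-(((p - 1 : ℕ) : R) + 1) ^ 2 - (((p - 1 : ℕ) : R) + 1) * p - (p : R) ^ 2) * h5 - (p : R) * hp2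
      · ring
  have hcoef : ∀ n : ℤ, ¬ (p : ℤ) ∣ n → g.coeff n = 0 := by
    intro n hn
    have h4 := congrArg (fun f => HahnSeries.coeff f n) h3
    simp only [hQ0, map_zero, zero_mul, HahnSeries.coeff_zero] at h4
    rw [TH_coeff, TH_coeff, TH_coeff] at h4
    have hu := hun n hn
    rw [hu.mul_right_eq_zero, hu.mul_right_eq_zero, hu.mul_right_eq_zero] at h4
    exact h4
  have h2 : TH (TH g) = 0 := by
    ext n
    rw [TH_coeff, TH_coeff, HahnSeries.coeff_zero]
    by_cases hn : (p : ℤ) ∣ n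
    · obtain ⟨k, rfl⟩ := hn
      push_cast
      linear_combination (k : R) ^ 2 * g.coeff (p * k) * hp2
    · rw [hcoef n hn]
      ring
  have h1 : TH g ^ 2 = 0 := by
    obtain ⟨f, hf⟩ : ∃ f : LaurentSeries R, ∀ n, f.coeff n = ((n / p : ℤ) : R) * g.coeff n := by
      refine ⟨⟨fun n => ((n / p : ℤ) : R) * g.coeff n, g.isPWO_support.mono ?_⟩, fun n => rfl⟩
      intro n hn
      rw [Function.mem_support] at hn
      rw [HahnSeries.mem_support]
      intro h
      exact hn (by rw [h, mul_zero])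
    have hTH : TH g = HahnSeries.C (p : R) * f := by
      ext n
      rw [TH_coeff, coeffC, hf]
      by_cases hn : (p : ℤ) ∣ n
      · obtain ⟨k, rfl⟩ := hn
        have hp0 : (p : ℤ) ≠ 0 := by exact_mod_cast hp.ne_zero
        rw [Int.mul_ediv_cancel_left _ hp0]
        push_cast
        ring
      · rw [hcoef n hn]
        ring
    rw [hTH, mul_pow, ← map_pow, hp2, map_zero, zero_mul]
  have hD := ev_DP r hr G
  rw [← hg, h2, h1] at hD
  apply eq_zero_of_coeff (ramL r hr).J 1 j 1 0 hj1 (map_one _) hj2 (by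
    rw [map_one, mul_one]
    rfl)
  intro n
  rw [hD]
  simp

end Pool.Agent.R498.EJ
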