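import Pool.Agent.R498.EJ.EJ6

set_option autoImplicit false

/-!
# A root of `G` modulo `p` is a root modulo `p²`
-/

namespace Pool.Agent.R498.EJ

open Polynomial

section field

variable {F : Type*} [Field F] (p : ℕ) [CharP F p]

theorem Y_der (c : F) (m : ℕ) : (X - C c) * derivative ((X - C c) ^ m) = (m : F[X]) * (X - C c) ^ m := by
  rcases m with _ | m
  · simp
  · rw [derivative_pow, derivative_X_sub_C, Nat.add_sub_cancel]
    simp only [map_natCast]
    push_cast
    ring

include p in
theorem double_root (hp : p.Prime) (hp5 : 5 ≤ p) (g : F[X]) (hg0 : g ≠ 0) (hgd : g.natDegree ≤ p - 1) (hD : DP g = 0) (c : F)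
    (hc : c ≠ 0) (hk : c - 1728 ≠ 0) (hgc : g.eval c = 0) :
    (derivative g).eval c = 0 ∧ (derivative (derivative g)).eval c ≠ 0 := by
  have hn1 : 0 < g.rootMultiplicity c := (rootMultiplicity_pos hg0).2 hgc
  obtain ⟨m, hm⟩ : ∃ m, g.rootMultiplicity c = m + 1 := ⟨g.rootMultiplicity c - 1, by omega⟩
  obtain ⟨s, hs1, hs2⟩ := exists_eq_pow_rootMultiplicity_mul_and_not_dvd g hg0 c
  rw [hm] at hs1
  have hmp : m + 1 ≤ p - 1 := by
    rw [← hm]
    have h1 := natDegree_le_of_dvd (pow_rootMultiplicity_dvd g c) hg0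
    rw [natDegree_pow, natDegree_X_sub_C, mul_one] at h1
    exact h1.trans hgd
  have hsc : s.eval c ≠ 0 := by
    intro h
    exact hs2 (dvd_iff_isRoot.2 h)
  obtain ⟨Y, hY⟩ : ∃ Y : F[X], Y = X - C c := ⟨_, rfl⟩
  have hY1 : derivative Y = 1 := by rw [hY, derivative_X_sub_C]
  have hYm := Y_der c m
  rw [← hY] at hs1 hYm
  have hd1 : derivative g = Y ^ m * ((m + 1 : F[X]) * s + Y * derivative s) := by
    rw [hs1, pow_succ, derivative_mul, derivative_mul, hY1]
    linear_combination s * hYm
  have hd2 : Y * derivative (derivative g) = Y ^ m * ((m + 1 : F[X]) * m * s + 2 * (m + 1 : F[X]) * Y * derivative s +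
      Y ^ 2 * derivative (derivative s)) := by
    rw [hd1, derivative_mul, derivative_add, derivative_mul, derivative_mul, hY1]
    have h1 : derivative ((m : F[X]) + 1) = 0 := by
      rw [derivative_add, derivative_natCast, derivative_one, add_zero]
    rw [h1]
    linear_combination ((m + 1 : F[X]) * s + Y * derivative s) * hYm
  have hYD : Y ^ (2 * m + 1) * ((36 * ((X : F[X]) ^ 2 * ((X : F[X]) - 1728) ^ 2 * (2 * s * ((m + 1 : F[X]) * (m : F[X]) * s +
      2 * (m + 1 : F[X]) * Y * derivative s + Y ^ 2 * derivative (derivative s)) -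
      ((m + 1 : F[X]) * s + Y * derivative s) ^ 2)) : F[X]) +
      Y * (72 * ((X : F[X]) * ((X : F[X]) - 1728) * ((X : F[X]) + ((X : F[X]) - 1728)) *
        (s * ((m + 1 : F[X]) * s + Y * derivative s)))) +
      Y ^ 2 * ((61 * ((X : F[X]) * ((X : F[X]) - 1728)) - (5 * (X : F[X]) - 3456) ^ 2) * s ^ 2)) = 0 := by
    have h1 : Y * DP g = 0 := by rw [hD, mul_zero]
    unfold DP at h1
    have h2 : Y ^ (2 * m + 1) = Y ^ m * Y ^ m * Y := by ring
    have h3 : Y ^ (m + 1) = Y ^ m * Y := pow_succ _ _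
    rw [h3] at hs1
    rw [h2]
    have h4 : (g * (Y * derivative (derivative g))) = Y ^ m * Y * s * (Y ^ m * ((m + 1 : F[X]) * m * s +
      2 * (m + 1 : F[X]) * Y * derivative s + Y ^ 2 * derivative (derivative s))) := by
      rw [hd2]
      rw [← hs1]
    rw [hd1] at h1 h4
    rw [← h1]
    linear_combination (-72 * X ^ 2 * (X - 1728) ^ 2) * h4 -
      (72 * (X * (X - 1728) * (X + (X - 1728))) * Y * (Y ^ m * ((m + 1 : F[X]) * s + Y * derivative s)) +
       (61 * (X * (X - 1728)) - (5 * X - 3456) ^ 2) * Y * (g + Y ^ m * Y * s)) * hs1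
  have hYne : Y ^ (2 * m + 1) ≠ 0 := pow_ne_zero _ (by
    rw [hY]
    exact X_sub_C_ne_zero c)
  have hW := (mul_eq_zero.1 hYD).resolve_left hYne
  have hYc : Y.eval c = 0 := by
    rw [hY]
    simp
  have hWc := congrArg (Polynomial.eval c) hW
  simp only [eval_add, eval_mul, eval_pow, eval_sub, eval_X, eval_ofNat, eval_one, eval_natCast, hYc, eval_zero] at hWc
  have h36 : (36 : F) ≠ 0 := by
    intro h
    have h1 : ((36 : ℕ) : F) = 0 := by exact_mod_cast h
    rw [CharP.cast_eq_zero_iff F p] at h1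
    have h2 : (36 : ℕ) = 2 * 2 * 3 * 3 := by norm_num
    rw [h2] at h1
    have h3 : p ∣ 2 ∨ p ∣ 3 := by
      rcases (Nat.Prime.dvd_mul hp).1 h1 with h | h
      · rcases (Nat.Prime.dvd_mul hp).1 h with h | h
        · rcases (Nat.Prime.dvd_mul hp).1 h with h | h
          · exact Or.inl h
          · exact Or.inl h
        · exact Or.inr h
      · exact Or.inr h
    rcases h3 with h | h
    · have := Nat.le_of_dvd (by norm_num) h
      omega
    · have := Nat.le_of_dvd (by norm_num) h
      omega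
  have hm1 : ((m : F) + 1) * (m - 1) = 0 := by
    have h1 : (36 * (c ^ 2 * (c - 1728) ^ 2) * s.eval c ^ 2) * (((m : F) + 1) * (m - 1)) = 0 := by
      linear_combination hWc
    rcases mul_eq_zero.1 h1 with h | h
    · exfalso
      have h5 : 36 * (c ^ 2 * (c - 1728) ^ 2) * s.eval c ^ 2 ≠ 0 :=
        mul_ne_zero (mul_ne_zero h36 (mul_ne_zero (pow_ne_zero _ hc) (pow_ne_zero _ hk))) (pow_ne_zero _ hsc)
      exact h5 h
    · exact h
  have hm2 : m = 1 := by
    rcases mul_eq_zero.1 hm1 with h | h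
    · exfalso
      have h1 : ((m + 1 : ℕ) : F) = 0 := by exact_mod_cast h
      rw [CharP.cast_eq_zero_iff F p] at h1
      have := Nat.le_of_dvd (by omega) h1
      omega
    · have h1 : ((m : ℕ) : F) = ((1 : ℕ) : F) := by
        push_cast
        linear_combination h
      exact CharP.natCast_injOn_Iio F p (Set.mem_Iio.2 (by omega)) (Set.mem_Iio.2 (by omega)) h1
  subst hm2
  have h2 : (2 : F) ≠ 0 := by
    intro h
    apply h36
    linear_combination 18 * h
  constructor
  · rw [hd1]
    simp [hYc]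
  · intro h
    have hd3 : derivative (derivative g) = 2 * s + Y * (4 * derivative s + Y * derivative (derivative s)) := by
      rw [hd1, pow_one, derivative_mul, derivative_add, derivative_mul, derivative_mul, hY1]
      have h1 : derivative (((1 : ℕ) : F[X]) + 1) = 0 := by
        rw [derivative_add, derivative_natCast, derivative_one, add_zero]
      rw [h1]
      push_cast
      ring
    rw [hd3] at h
    simp only [eval_add, eval_mul, eval_ofNat, hYc, zero_mul, add_zero] at h
    exact (mul_ne_zero h2 hsc) h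

end field

theorem lift_root {R F : Type*} [CommRing R] [Field F] (p : ℕ) [CharP F p] (hp : p.Prime) (hp5 : 5 ≤ p) (π : R →+* F)
    (hker : ∀ x y, π x = 0 → π y = 0 → x * y = 0) (hunit : ∀ x, π x ≠ 0 → IsUnit x) (G : R[X])
    (hG : G.natDegree ≤ p - 1) (hG1 : G.coeff (p - 1) = 1) (hD : DP G = 0) (c : R) (hc : π c ≠ 0)
    (hk : π (c - 1728) ≠ 0) (hGc : π (G.eval c) = 0) : G.eval c = 0 := by
  have hm : ∀ P : R[X], π (P.eval c) = (P.map π).eval (π c) := by
    intro P
    rw [eval_map, eval₂_at_apply]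
  have hDm : DP (G.map π) = 0 := by
    have h := congrArg (Polynomial.map π) hD
    unfold DP at h ⊢
    simpa [Polynomial.map_add, Polynomial.map_mul, Polynomial.map_sub, Polynomial.map_pow, derivative_map] using h
  have hg0 : G.map π ≠ 0 := by
    intro h
    have h1 := congrArg (fun P => Polynomial.coeff P (p - 1)) h
    simp [coeff_map, hG1] at h1
  have h := double_root p hp hp5 (G.map π) hg0 ((natDegree_map_le).trans hG) hDm (π c) hc (by
    rw [map_sub, map_ofNat] at hk
    exact hk) (by rw [← hm, hGc])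
  rw [derivative_map, derivative_map, ← hm, ← hm] at h
  have hDc := congrArg (Polynomial.eval c) hD
  unfold DP at hDc
  simp only [eval_add, eval_mul, eval_pow, eval_sub, eval_X, eval_ofNat, eval_zero] at hDc
  have h1 := hker _ _ hGc h.1
  have h2 := hker _ _ h.1 h.1
  have h3 := hker _ _ hGc hGc
  have h72 : π 72 ≠ 0 := by
    rw [map_ofNat]
    intro h
    have h1 : ((72 : ℕ) : F) = 0 := by exact_mod_cast h
    rw [CharP.cast_eq_zero_iff F p] at h1
    have h2 : (72 : ℕ) = 2 ^ 3 * 3 ^ 2 := by norm_num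
    rw [h2] at h1
    rcases (Nat.Prime.dvd_mul hp).1 h1 with h | h
    · have := Nat.le_of_dvd (by norm_num) (hp.dvd_of_dvd_pow h)
      omega
    · have := Nat.le_of_dvd (by norm_num) (hp.dvd_of_dvd_pow h)
      omega
  have hu : IsUnit (72 * c ^ 2 * (c - 1728) ^ 2 * (derivative (derivative G)).eval c) := by
    apply hunit
    rw [map_mul, map_mul, map_mul, map_pow, map_pow]
    exact mul_ne_zero (mul_ne_zero (mul_ne_zero h72 (pow_ne_zero _ hc)) (pow_ne_zero _ hk)) h.2
  have h4 : (72 * c ^ 2 * (c - 1728) ^ 2 * (derivative (derivative G)).eval c) * G.eval c = 0 := by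
    linear_combination hDc + 36 * c ^ 2 * (c - 1728) ^ 2 * h2 - 72 * (c * (c - 1728) * (c + (c - 1728))) * h1 -
      (61 * (c * (c - 1728)) - (5 * c - 3456) ^ 2) * h3
  exact (hu.mul_right_eq_zero).1 h4

end Pool.Agent.R498.EJ
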