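import Mathlib

set_option autoImplicit false

/-!
# The Gauss–Manin system of `y² = x³ + a x + b` modulo `p` by exactness
-/

namespace Pool.Agent.R498.EJ

open Polynomial

variable {A : Type*} [CommRing A]

/-- coefficientwise application of an additive map -/
noncomputable def Th (t : A →+ A) (P : A[X]) : A[X] := ∑ i ∈ P.support, monomial i (t (P.coeff i))

theorem Th_coeff (t : A →+ A) (P : A[X]) (n : ℕ) : (Th t P).coeff n = t (P.coeff n) := by
  rw [Th, finsetSum_coeff]
  simp only [coeff_monomial]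
  rw [Finset.sum_ite_eq']
  split_ifs with h
  · rfl
  · rw [notMem_support_iff.1 h, map_zero]

theorem Th_mul (t : A →+ A) (hm : ∀ f g, t (f * g) = f * t g + g * t f) (P Q : A[X]) :
    Th t (P * Q) = P * Th t Q + Q * Th t P := by
  ext n
  rw [Th_coeff, coeff_mul, map_sum, coeff_add, mul_comm Q, coeff_mul, coeff_mul, ← Finset.sum_add_distrib]
  apply Finset.sum_congr rfl
  intro x _
  rw [hm, Th_coeff, Th_coeff]
  ring

theorem Th_pow (t : A →+ A) (hm : ∀ f g, t (f * g) = f * t g + g * t f) (P : A[X]) (n : ℕ) :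
    Th t (P ^ (n + 1)) = ((n + 1 : ℕ) : A[X]) * P ^ n * Th t P := by
  induction n with
  | zero => simp
  | succ n ih =>
    rw [pow_succ, Th_mul t hm, ih]
    push_cast
    ring

/-- `x³ + a x + b` -/
noncomputable def cub (a b : A) : A[X] := X ^ 3 + C a * X + C b

section

variable (p M : ℕ) [CharP A p] (hp : p = 2 * M + 3) (t : A →+ A) (hm : ∀ f g, t (f * g) = f * t g + g * t f)
  (a b e : A) (ha : 3 * t a = e * a + 18 * b) (hb : 6 * t b = 3 * (e * b) - 8 * (a * a)) (he : 12 * t e = e * e + 48 * a)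

theorem der_coeff (P : A[X]) (p : ℕ) [CharP A p] (hp1 : 1 ≤ p) : (derivative P).coeff (p - 1) = 0 := by
  rw [coeff_derivative]
  have h : ((p - 1 : ℕ) : A) + 1 = 0 := by
    have h1 : ((p - 1 : ℕ) : A) + 1 = ((p - 1 + 1 : ℕ) : A) := by push_cast; ring
    rw [h1, Nat.sub_add_cancel hp1, CharP.cast_eq_zero]
  rw [h, mul_zero]

theorem der_cub (a b : A) : derivative (cub a b) = C 3 * X ^ 2 + C a := by
  unfold cub
  rw [derivative_add, derivative_add, derivative_C, add_zero, derivative_C_mul, derivative_X, mul_one, derivative_X_pow]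
  simp

include hp in
theorem exact1 (g : A[X]) : ((2 * derivative g * cub a b - g * derivative (cub a b)) * cub a b ^ M).coeff (p - 1) = 0 := by
  have h := der_coeff (g * cub a b ^ (M + 1)) p (by omega)
  have h2 : 2 * derivative (g * cub a b ^ (M + 1)) =
      (2 * derivative g * cub a b - g * derivative (cub a b)) * cub a b ^ M +
        ((p : ℕ) : A[X]) * (g * cub a b ^ M * derivative (cub a b)) := by
    rw [derivative_mul, derivative_pow_succ, hp, pow_succ]
    simp only [map_add, map_natCast, map_one]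
    push_cast
    ring
  have h3 : ((p : ℕ) : A[X]) = 0 := by
    rw [← C_eq_natCast, CharP.cast_eq_zero, C_0]
  rw [h3, zero_mul, add_zero] at h2
  rw [← h2]
  have h4 : (2 : A[X]) = C 2 := (map_ofNat C 2).symm
  rw [h4, coeff_C_mul, h, mul_zero]

include hp in
theorem exact2 : 3 * (X ^ 2 * cub a b ^ (M + 1)).coeff (p - 1) = -(a * (cub a b ^ (M + 1)).coeff (p - 1)) := by
  have h := der_coeff (cub a b ^ (M + 2)) p (by omega)
  have hd := der_cub a b
  have h2 : 2 * derivative (cub a b ^ (M + 2)) = C 3 * (X ^ 2 * cub a b ^ (M + 1)) + C a * cub a b ^ (M + 1) +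
        ((p : ℕ) : A[X]) * (cub a b ^ (M + 1) * derivative (cub a b)) := by
    rw [show M + 2 = (M + 1) + 1 by ring, derivative_pow_succ, hd, hp]
    simp only [map_add, map_natCast, map_one]
    push_cast
    ring
  have h3 : ((p : ℕ) : A[X]) = 0 := by
    rw [← C_eq_natCast, CharP.cast_eq_zero, C_0]
  rw [h3, zero_mul, add_zero] at h2
  have h5 := congrArg (fun P => P.coeff (p - 1)) h2
  simp only [coeff_add, coeff_C_mul] at h5
  have h4 : (2 : A[X]) = C 2 := (map_ofNat C 2).symm
  rw [h4, coeff_C_mul, h, mul_zero] at h5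
  linear_combination -h5

include hm in
theorem t_one : t 1 = 0 := by
  have h := hm 1 1
  rw [one_mul, one_mul] at h
  linear_combination -h

include hm in
theorem Th_cub : Th t (cub a b) = C (t a) * X + C (t b) := by
  have h1 := t_one t hm
  ext n
  rw [Th_coeff]
  unfold cub
  simp only [coeff_add, coeff_X_pow, coeff_C_mul, coeff_X, coeff_C]
  rcases n with _ | _ | _ | _ | n <;> simp [h1]

include ha hb hm in
theorem key : -6 * Th t (cub a b) = (12 * X - C e) * cub a b + (2 * derivative (-(8 * C a + C e * X + 12 * X ^ 2)) * cub a b -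
    (-(8 * C a + C e * X + 12 * X ^ 2)) * derivative (cub a b)) := by
  have hd : derivative (-(8 * C a + C e * X + 12 * X ^ 2)) = -(C e + 24 * X) := by
    have h8 : (8 : A[X]) = C 8 := (map_ofNat C 8).symm
    have h12 : (12 : A[X]) = C 12 := (map_ofNat C 12).symm
    rw [h8, h12, derivative_neg, derivative_add, derivative_add, derivative_C_mul, derivative_C, mul_zero, zero_add,
      derivative_C_mul, derivative_X, mul_one, derivative_C_mul, derivative_X_pow]
    simp only [map_ofNat, Nat.cast_ofNat, Nat.add_one_sub_one, pow_one]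
    ring
  have ha' := congrArg (C (R := A)) ha
  have hb' := congrArg (C (R := A)) hb
  simp only [map_mul, map_add, map_sub, map_ofNat] at ha' hb'
  rw [hd, Th_cub t hm, der_cub]
  unfold cub
  have h3 : (C (3 : A)) = 3 := map_ofNat C 3
  rw [h3]
  linear_combination (-2 * X) * ha' - hb'

include hp hm ha hb in
theorem gm0 : 12 * t ((cub a b ^ (M + 1)).coeff (p - 1)) =
    -(e * (cub a b ^ (M + 1)).coeff (p - 1)) + 12 * (X * cub a b ^ (M + 1)).coeff (p - 1) := by
  have h1 := exact1 p M hp a b (-(8 * C a + C e * X + 12 * X ^ 2))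
  have hk := key t hm a b e ha hb
  have h3 : ((p : ℕ) : A[X]) = 0 := by
    rw [← C_eq_natCast, CharP.cast_eq_zero, C_0]
  have h4 : 12 * Th t (cub a b ^ (M + 1)) = -(C e * cub a b ^ (M + 1)) + 12 * (X * cub a b ^ (M + 1)) +
      (2 * derivative (-(8 * C a + C e * X + 12 * X ^ 2)) * cub a b -
    (-(8 * C a + C e * X + 12 * X ^ 2)) * derivative (cub a b)) * cub a b ^ M + ((p : ℕ) : A[X]) * (6 * cub a b ^ M * Th t (cub a b)) := by
    rw [Th_pow t hm, hp]
    push_cast
    linear_combination cub a b ^ M * hk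
  rw [h3, zero_mul, add_zero] at h4
  have h5 := congrArg (fun P => P.coeff (p - 1)) h4
  have h12 : (12 : A[X]) = C 12 := (map_ofNat C 12).symm
  rw [h12] at h5
  simp only [coeff_add, coeff_neg, coeff_C_mul] at h5
  rw [← h12, h1, Th_coeff, add_zero] at h5
  exact h5

include hp hm ha hb in
theorem gm1 : 12 * t ((X * cub a b ^ (M + 1)).coeff (p - 1)) =
    e * (X * cub a b ^ (M + 1)).coeff (p - 1) + 4 * (a * (cub a b ^ (M + 1)).coeff (p - 1)) := by
  have h1 := exact1 p M hp a b (X * -(8 * C a + C e * X + 12 * X ^ 2))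
  have h2 := exact2 p M hp a b
  have hk := key t hm a b e ha hb
  have h3 : ((p : ℕ) : A[X]) = 0 := by
    rw [← C_eq_natCast, CharP.cast_eq_zero, C_0]
  have hX : Th t (X : A[X]) = 0 := by
    ext n
    rw [Th_coeff, coeff_X, coeff_zero]
    split_ifs
    · exact t_one t hm
    · exact map_zero t
  have h4 : 12 * Th t (X * cub a b ^ (M + 1)) = C e * (X * cub a b ^ (M + 1)) + 16 * (C a * cub a b ^ (M + 1)) +
      36 * (X ^ 2 * cub a b ^ (M + 1)) +
      (2 * derivative (X * -(8 * C a + C e * X + 12 * X ^ 2)) * cub a b -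
    (X * -(8 * C a + C e * X + 12 * X ^ 2)) * derivative (cub a b)) * cub a b ^ M +
      ((p : ℕ) : A[X]) * (6 * X * cub a b ^ M * Th t (cub a b)) := by
    rw [Th_mul t hm, hX, Th_pow t hm, hp, derivative_mul, derivative_X]
    push_cast
    linear_combination X * cub a b ^ M * hk
  rw [h3, zero_mul, add_zero] at h4
  have h5 := congrArg (fun P => P.coeff (p - 1)) h4
  have h12 : (12 : A[X]) = C 12 := (map_ofNat C 12).symm
  have h16 : (16 : A[X]) = C 16 := (map_ofNat C 16).symm
  have h36 : (36 : A[X]) = C 36 := (map_ofNat C 36).symm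
  rw [h12, h16, h36] at h5
  simp only [coeff_add, coeff_C_mul] at h5
  rw [← h12, h1, Th_coeff, add_zero] at h5
  linear_combination h5 + 12 * h2

include hp hm ha hb he in
theorem gm2 : 144 * t (t ((cub a b ^ (M + 1)).coeff (p - 1))) = 0 := by
  have h0 := gm0 p M hp t hm a b e ha hb
  have h1 := gm1 p M hp t hm a b e ha hb
  generalize (cub a b ^ (M + 1)).coeff (p - 1) = H0 at h0 h1 ⊢
  generalize (X * cub a b ^ (M + 1)).coeff (p - 1) = H1 at h0 h1
  have hn : ∀ (n : ℕ) (x : A), t ((n : A) * x) = n * t x := by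
    intro n x
    rw [← nsmul_eq_mul, map_nsmul, nsmul_eq_mul]
  have hO : ∀ x : A, t (12 * x) = 12 * t x := by
    intro x
    have h := hn 12 x
    push_cast at h
    exact h
  have h2 := congrArg t h0
  rw [hO, map_add, map_neg, hm, hO] at h2
  linear_combination 12 * h2 - H0 * he - e * h0 + 12 * h1

end

end Pool.Agent.R498.EJ
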